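import Pool.Agent.Helper832_MU.Red

/-!
# Translations to one form of the absolute Galois group of `ℚ`
-/

set_option autoImplicit false

namespace Pool.Agent.Helper832_MU

open NumberField Subgroup Module IntermediateField Pool.Agent.W569.FM Pool.Agent.Q60.MU
open Pool.Agent.R417.FK Pool.Agent.Helper832_EG Pool.Agent.W571.FM
open scoped Pointwise commutatorElement

theorem ram_fin (N : IntermediateField ℚ Qb) [h : FiniteDimensional ℚ N] :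
    ∃ S : Set (Ideal (𝓞 ℚ)), S.Finite ∧ ∀ P : Ideal (𝓞 Qb), P.IsMaximal → ∀ σ : Gal(Qb/ℚ),
      (∀ x : 𝓞 Qb, σ • x - x ∈ P) → σ ∉ N.fixingSubgroup → cm P ∈ S := by
  obtain ⟨S, hS, h2⟩ := @finite_ram ℚ _ _ N h
  refine ⟨S, hS, fun P hP σ h3 h4 => h2 P hP fun h5 => h4 (h5 h3)⟩

theorem tr (P Q : Ideal (𝓞 Qb)) (hP : P.IsMaximal) (hQ : Q.IsMaximal) (h : cm P = cm Q) :
    ∃ g : Gal(Qb/ℚ), ∀ x : 𝓞 Qb, x ∈ Q ↔ g⁻¹ • x ∈ P := exists_smul P Q hP.isPrime hQ.isPrime h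

theorem fr {p : ℕ} [Fact p.Prime] (P : Ideal (𝓞 Qb)) (hP : P.IsMaximal) (hp : (p : 𝓞 Qb) ∉ P) :
    ∃ σ : Gal(Qb/ℚ), (∀ x : 𝓞 Qb, σ • x - x ^ nm P ∈ P) ∧
      ∀ (n : ℕ) (ζ : Qb), ζ ^ p ^ n = 1 → σ ζ = ζ ^ nm P := by
  obtain ⟨σ, hσ⟩ := exists_frob hP
  exact ⟨σ, hσ, fun n ζ h => frob_root hP hp hσ h⟩

theorem nm_two {P : Ideal (𝓞 Qb)} (hP : P.IsMaximal) : 2 ≤ nm P := nm_ge_two hP

theorem nm_cop {p : ℕ} (hp : p.Prime) {P : Ideal (𝓞 Qb)} (hP : P.IsMaximal)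
    (h2 : (p : 𝓞 Qb) ∉ P) : ¬ p ∣ nm P := nm_coprime hp hP h2

theorem cm_p {p : ℕ} (hp : p.Prime) {P : Ideal (𝓞 Qb)} (hP : P.IsMaximal) (h : (p : 𝓞 Qb) ∈ P) :
    cm P = pl p := cm_eq hp hP h

theorem open_fix (x : 𝓞 Qb) : IsOpen {g : Gal(Qb/ℚ) | g • x = x} := isOpen_fix_integer (E := ℚ) x

end Pool.Agent.Helper832_MU
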