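import Pool.Agent.Helper832_MU.Rep

/-!
# Real fields and CM fields detect
-/

set_option autoImplicit false

namespace Pool.Agent.Helper832_MU

open NumberField Subgroup Module IntermediateField
open Pool.Agent.Q60.MU (Qb isAlg_Qb isGalois_Qb IsSimple stab mem_stab fix_fixed finite_fixed index_ne_zero' RankLe)
open scoped Pointwise commutatorElement

theorem cm_of_central (φ : Qb →+* ℂ) {c : Gal(Qb/ℚ)} (hc : ∀ x, φ (c x) = star (φ x))
    (M : IntermediateField ℚ Qb) [hfd : FiniteDimensional ℚ M] [hM : IsGalois ℚ M]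
    (hcM : c ∉ M.fixingSubgroup)
    (hcent : ∀ g : Gal(Qb/ℚ), g * c * g⁻¹ * c⁻¹ ∈ M.fixingSubgroup) : IsCMField M := by
  have hnf : NumberField M := ⟨⟩
  have hker : ∀ g : Gal(Qb/ℚ), AlgEquiv.restrictNormalHom (F := ℚ) (K₁ := Qb) M g = 1 ↔ g ∈ M.fixingSubgroup := by
    intro g
    constructor
    · intro h
      refine (IntermediateField.mem_fixingSubgroup_iff _ _).2 fun x hx => ?_
      have h1 : ((AlgEquiv.restrictNormalHom (F := ℚ) (K₁ := Qb) M g ⟨x, hx⟩ : M) : Qb) = g x :=
        AlgEquiv.restrictNormal_commutes g M ⟨x, hx⟩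
      rw [h, AlgEquiv.one_apply] at h1
      exact h1.symm
    · intro h
      refine AlgEquiv.ext fun x => Subtype.ext ?_
      have h1 : ((AlgEquiv.restrictNormalHom (F := ℚ) (K₁ := Qb) M g x : M) : Qb) = g x :=
        AlgEquiv.restrictNormal_commutes g M x
      rw [h1, AlgEquiv.one_apply]
      exact (IntermediateField.mem_fixingSubgroup_iff _ _).1 h _ x.2
  let σ : Gal(M/ℚ) := AlgEquiv.restrictNormalHom (F := ℚ) (K₁ := Qb) M c
  let φM : M →+* ℂ := φ.comp (algebraMap M Qb)
  have hσ1 : σ ≠ 1 := fun h => hcM ((hker c).1 h)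
  have hσ0 : ComplexEmbedding.IsConj φM σ := by
    refine RingHom.ext fun x => ?_
    show star (φ (x : Qb)) = φ ((σ x : M) : Qb)
    have h1 : ((σ x : M) : Qb) = c (x : Qb) := AlgEquiv.restrictNormal_commutes c M x
    rw [h1, hc]
  have hcen : ∀ ν : Gal(M/ℚ), ν⁻¹ * σ * ν = σ := by
    intro ν
    obtain ⟨g, rfl⟩ := AlgEquiv.restrictNormalHom_surjective (F := ℚ) (K₁ := M) Qb ν
    have h1 := (hker _).2 (hcent g⁻¹)
    simp only [map_mul, map_inv, inv_inv] at h1
    exact mul_inv_eq_one.1 h1
  have hσ : ∀ ψ : M →+* ℂ, ComplexEmbedding.IsConj ψ σ := by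
    intro ψ
    obtain ⟨ν, rfl⟩ := ComplexEmbedding.exists_comp_symm_eq_of_comp_eq (k := ℚ) φM ψ (by ext; simp)
    have h1 := hσ0.comp ν.symm
    rw [hcen] at h1
    exact h1
  have htc : IsTotallyComplex M := ⟨fun w => by
    rw [InfinitePlace.isComplex_iff]
    exact (ComplexEmbedding.isConj_ne_one_iff (hσ _)).1 hσ1⟩
  exact IsCMField.of_forall_isConj M hσ

theorem det_conj {p : ℕ} [hp : Fact p.Prime] (h2 : p ≠ 2) (φ : Qb →+* ℂ)
    (N : IntermediateField ℚ Qb) (hN : FiniteDimensional ℚ N) (hNn : IsGalois ℚ N)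
    (hreal : MuZ p (N ⊓ realPart φ))
    (hcm : ∀ F : IntermediateField ℚ Qb, F ≤ N → IsGalois ℚ F → IsCMField F → MuZ p F) : MuZ p N := by
  obtain ⟨c, hc⟩ := exists_conj φ
  have hcc := conj_sq hc
  refine cyc_detect h2 N hN hNn {E | E ≤ N ∧ MuZ p E} (fun E hE => hE.1) ?_ (fun E hE => hE.2) N le_rfl
  intro S _ _ _ τ hτ hs
  have hnt : Nontrivial S := hs.1
  have hNo := N.fixingSubgroup_isOpen
  by_cases h : ∃ v : S, v ≠ 0 ∧ τ c v = v
  · obtain ⟨v, hv, hcv⟩ := h
    have hle : N.fixingSubgroup ≤ stab τ v := fun g hg => hτ g hg v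
    have hso : IsOpen (stab τ v : Set Gal(Qb/ℚ)) := Subgroup.isOpen_mono hle hNo
    have hsf : (fixedField (stab τ v)).fixingSubgroup = stab τ v := fix_fixed hso
    have hEN : fixedField (stab τ v) ≤ N := by
      rw [← InfiniteGalois.fixedField_fixingSubgroup N]
      exact fixedField_antitone hle
    have hER : fixedField (stab τ v) ≤ realPart φ := by
      intro x hx
      rw [mem_fixedField_iff] at hx
      exact (conj_fix hc).1 (hx c hcv)
    refine ⟨fixedField (stab τ v), ⟨hEN, (MuZ.mono (le_inf hEN hER) (le_fd inf_le_left hN) hreal)⟩,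
      v, hv, ?_⟩
    rw [hsf]
    exact fun g hg => hg
  · push Not at h
    have hneg : ∀ x, τ c x = -x := by
      intro x
      by_contra hx
      refine h (τ c x + x) (fun h0 => hx (eq_neg_of_add_eq_zero_left h0)) ?_
      rw [map_add, ← Module.End.mul_apply, ← map_mul, hcc, map_one, Module.End.one_apply, add_comm]
    let K : Subgroup Gal(Qb/ℚ) := MonoidHom.ker τ
    have hKmem : ∀ g, g ∈ K ↔ ∀ x, τ g x = x := by
      intro g
      constructor
      · intro hg x
        have h1 : τ g = 1 := hg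
        rw [h1, Module.End.one_apply]
      · intro hg
        exact LinearMap.ext hg
    have hKn : K.Normal := MonoidHom.normal_ker τ
    have hle : N.fixingSubgroup ≤ K := fun g hg => (hKmem g).2 fun x => hτ g hg x
    have hKo : IsOpen (K : Set Gal(Qb/ℚ)) := Subgroup.isOpen_mono hle hNo
    have hsf : (fixedField K).fixingSubgroup = K := fix_fixed hKo
    have hMN : fixedField K ≤ N := by
      rw [← InfiniteGalois.fixedField_fixingSubgroup N]
      exact fixedField_antitone hle
    have hMfd := le_fd hMN hN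
    have hMg : IsGalois ℚ (fixedField K) :=
      (InfiniteGalois.normal_iff_isGalois (fixedField K)).1 (by rw [hsf]; exact hKn)
    have hMcm : IsCMField (fixedField K) := by
      refine cm_of_central φ hc (fixedField K) ?_ ?_
      · rw [hsf]
        intro hcK
        obtain ⟨x, hx⟩ := exists_ne (0 : S)
        have h1 := (hKmem c).1 hcK x
        rw [hneg] at h1
        have h3 : (2 : ZMod p) • x = 0 := by
          rw [two_smul]
          nth_rewrite 1 [← h1]
          exact neg_add_cancel x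
        rcases smul_eq_zero.1 h3 with h4 | h4
        · have h5 : ((2 : ℕ) : ZMod p) = 0 := by exact_mod_cast h4
          rw [ZMod.natCast_eq_zero_iff] at h5
          exact h2 ((Nat.prime_dvd_prime_iff_eq hp.out Nat.prime_two).1 h5)
        · exact hx h4
      · intro g
        rw [hsf, hKmem]
        intro x
        have hcinv : c⁻¹ = c := inv_eq_of_mul_eq_one_left hcc
        rw [map_mul, map_mul, map_mul, Module.End.mul_apply, Module.End.mul_apply, Module.End.mul_apply,
          hcinv, hneg, hneg, map_neg, map_neg, map_neg, neg_neg, ← Module.End.mul_apply, ← map_mul, mul_inv_cancel, map_one,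
          Module.End.one_apply]
    obtain ⟨v, hv⟩ := exists_ne (0 : S)
    refine ⟨fixedField K, ⟨hMN, hcm _ hMN hMg hMcm⟩, v, hv, ?_⟩
    rw [hsf]
    exact fun g hg => (hKmem g).1 hg v

end Pool.Agent.Helper832_MU
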