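import Pool.Agent.Helper832_MU.Base

/-!
# Primes in the layers of the cyclotomic `ℤ_p`-extension
-/

set_option autoImplicit false

namespace Pool.Agent.Helper832_MU

open NumberField Subgroup Module IntermediateField Pool.Agent.W569.FM Pool.Agent.Q60.MU
open Pool.Agent.R417.FK Pool.Agent.Helper832_EG Pool.Agent.W571.FM
open scoped Pointwise commutatorElement

/-- transitivity on the primes with the same contraction to the fixed ring of `H` -/
theorem trans_fixed (H : Subgroup (Gal(Qb/ℚ))) (hH : IsClosed (H : Set (Gal(Qb/ℚ)))) (P Q : Ideal (𝓞 Qb))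
    [hP : P.IsPrime] [hQ : Q.IsPrime]
    (h : ∀ x : 𝓞 Qb, (∀ g ∈ H, g • x = x) → (x ∈ P ↔ x ∈ Q)) : ∃ g ∈ H, Q = g • P := by
  classical
  let A := FixedPoints.subalgebra ℤ (𝓞 Qb) H
  have hA : ∀ x : 𝓞 Qb, x ∈ A ↔ ∀ g ∈ H, g • x = x := by
    intro x
    constructor
    · intro hx g hg
      exact hx ⟨g, hg⟩
    · rintro hx ⟨g, hg⟩
      exact hx g hg
  let _ : TopologicalSpace (𝓞 Qb) := ⊥
  have : DiscreteTopology (𝓞 Qb) := ⟨rfl⟩
  have : ContinuousSMul (Gal(Qb/ℚ)) (𝓞 Qb) := by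
    rw [continuousSMul_iff_stabilizer_isOpen]
    intro x
    exact open_fix x
  have hc : CompactSpace H := isCompact_iff_compactSpace.1 hH.isCompact
  have : ContinuousSMul H (𝓞 Qb) := by
    refine ⟨?_⟩
    have h1 : Continuous fun q : H × 𝓞 Qb => ((q.1 : Gal(Qb/ℚ)), q.2) :=
      (continuous_subtype_val.comp continuous_fst).prodMk continuous_snd
    exact (continuous_smul (M := Gal(Qb/ℚ)) (X := 𝓞 Qb)).comp h1
  have : SMulCommClass H A (𝓞 Qb) := by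
    refine ⟨fun g a x => ?_⟩
    show g • ((a : 𝓞 Qb) * x) = (a : 𝓞 Qb) * (g • x)
    rw [smul_mul']
    congr 1
    exact a.2 g
  have : Algebra.IsInvariant A (𝓞 Qb) H := ⟨fun b hb => ⟨⟨b, hb⟩, rfl⟩⟩
  obtain ⟨ρ, hρ⟩ := Algebra.IsInvariant.exists_smul_of_under_eq_of_profinite (A := A)
    (G := H) P Q (by
      ext x
      exact h (x : 𝓞 Qb) ((hA _).1 x.2))
  exact ⟨ρ, ρ.2, hρ⟩

theorem mem_smul_iff {P : Ideal (𝓞 Qb)} {g : Gal(Qb/ℚ)} {x : 𝓞 Qb} : x ∈ g • P ↔ g⁻¹ • x ∈ P :=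
  Ideal.mem_pointwise_smul_iff_inv_smul_mem

theorem smul_prime {P : Ideal (𝓞 Qb)} [hP : P.IsPrime] (g : Gal(Qb/ℚ)) : (g • P).IsPrime := by
  have h1 : g • P = P.comap (MulSemiringAction.toRingEquiv (Gal(Qb/ℚ)) (𝓞 Qb) g⁻¹ : 𝓞 Qb →+* 𝓞 Qb) := by
    ext x
    rw [mem_smul_iff]
    rfl
  rw [h1]
  exact Ideal.comap_isPrime _ _

theorem smul_max {P : Ideal (𝓞 Qb)} (hP : P.IsMaximal) (g : Gal(Qb/ℚ)) : (g • P).IsMaximal := by
  have h1 : g • P = P.comap (MulSemiringAction.toRingEquiv (Gal(Qb/ℚ)) (𝓞 Qb) g⁻¹ : 𝓞 Qb →+* 𝓞 Qb) := by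
    ext x
    rw [mem_smul_iff]
    rfl
  rw [h1]
  exact Ideal.comap_isMaximal_of_equiv _

theorem natCast_mem_smul {P : Ideal (𝓞 Qb)} (g : Gal(Qb/ℚ)) (n : ℕ) : (n : 𝓞 Qb) ∈ g • P ↔ (n : 𝓞 Qb) ∈ P := by
  rw [mem_smul_iff]
  have h1 : g⁻¹ • (n : 𝓞 Qb) = (n : 𝓞 Qb) :=
    map_natCast (MulSemiringAction.toRingHom (Gal(Qb/ℚ)) (𝓞 Qb) g⁻¹) n
  rw [h1]

theorem exists_root (p : ℕ) [hp : Fact p.Prime] (n : ℕ) : ∃ ζ : Qb, IsPrimitiveRoot ζ (p ^ n) := by
  have : NeZero (p ^ n) := ⟨pow_ne_zero _ hp.out.ne_zero⟩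
  have : NeZero ((p ^ n : ℕ) : Qb) := ⟨Nat.cast_ne_zero.2 (NeZero.ne _)⟩
  exact HasEnoughRootsOfUnity.exists_primitiveRoot Qb (p ^ n)

/-- the field of all `p`-power roots of unity -/
noncomputable def cycF (p : ℕ) : IntermediateField ℚ Qb := adjoin ℚ {z : Qb | ∃ n, z ^ p ^ n = 1}

theorem exists_level {p : ℕ} [hp : Fact p.Prime] {L : IntermediateField ℚ Qb} (hL : L ≤ cycF p)
    (hfd : FiniteDimensional ℚ L) : ∃ n, ∀ ζ : Qb, IsPrimitiveRoot ζ (p ^ n) → ∀ σ : Gal(Qb/ℚ), σ ζ = ζ →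
      σ ∈ L.fixingSubgroup := by
  classical
  obtain ⟨α, hα⟩ := Field.exists_primitive_element ℚ L
  obtain ⟨T, hT, hαT⟩ := exists_finset_of_mem_adjoin (hL α.2)
  choose! e he using fun z (hz : z ∈ T) => hT (Finset.mem_coe.2 hz)
  refine ⟨T.sup e, fun ζ hζ σ hσ => ?_⟩
  have h1 : ∀ z ∈ T, σ z = z := by
    intro z hz
    have h2 : z ^ p ^ (T.sup e) = 1 := by
      obtain ⟨d, hd⟩ := pow_dvd_pow p (Finset.le_sup (f := e) hz)
      rw [hd, pow_mul, he z hz, one_pow]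
    obtain ⟨i, _, rfl⟩ := hζ.eq_pow_of_pow_eq_one h2
    rw [map_pow, hσ]
  have h2 : ∀ x ∈ adjoin ℚ (T : Set Qb), σ x = x := by
    intro x hx
    refine adjoin_induction ℚ (p := fun x _ => σ x = x) ?_ ?_ ?_ ?_ ?_ hx
    · intro z hz
      exact h1 z hz
    · intro z
      exact σ.commutes z
    · intro u v _ _ hu hv
      rw [map_add, hu, hv]
    · intro u _ hu
      rw [map_inv₀, hu]
    · intro u v _ _ hu hv
      rw [map_mul, hu, hv]
  refine (IntermediateField.mem_fixingSubgroup_iff _ _).2 fun x hx => ?_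
  have h3 : (⟨x, hx⟩ : L) ∈ (ℚ⟮α⟯ : IntermediateField ℚ L) := by rw [hα]; trivial
  have h4 : ∀ y : L, y ∈ (ℚ⟮α⟯ : IntermediateField ℚ L) → σ (y : Qb) = y := by
    intro y hy
    refine adjoin_induction ℚ (p := fun (y : L) _ => σ (y : Qb) = y) ?_ ?_ ?_ ?_ ?_ hy
    · intro z hz
      rw [Set.mem_singleton_iff.1 hz]
      exact h2 _ hαT
    · intro z
      exact σ.commutes z
    · intro u v _ _ hu hv
      simp only [IntermediateField.coe_add, map_add, hu, hv]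
    · intro u _ hu
      simp only [IntermediateField.coe_inv, map_inv₀, hu]
    · intro u v _ _ hu hv
      simp only [IntermediateField.coe_mul, map_mul, hu, hv]
  exact h4 _ h3

theorem isGalois_of_le {p : ℕ} [hp : Fact p.Prime] {L : IntermediateField ℚ Qb} (hL : L ≤ cycF p)
    (hfd : FiniteDimensional ℚ L) : IsGalois ℚ L := by
  obtain ⟨n, hn⟩ := exists_level hL hfd
  obtain ⟨ζ, hζ⟩ := exists_root p n
  have : NeZero (p ^ n) := ⟨pow_ne_zero _ hp.out.ne_zero⟩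
  refine (InfiniteGalois.normal_iff_isGalois L).1 ⟨fun h hh g => ?_⟩
  have h1 : g * h * g⁻¹ * h⁻¹ ∈ L.fixingSubgroup := by
    refine hn ζ hζ _ ?_
    have h2 : ∀ σ : Gal(Qb/ℚ), hζ.autToPow ℚ σ = 1 → σ ζ = ζ := by
      intro σ hσ
      have h3 := hζ.autToPow_spec ℚ σ
      rw [hσ] at h3
      rw [← h3]
      by_cases h4 : p ^ n = 1
      · have h5 : ζ = 1 := by
          have h6 := hζ.pow_eq_one
          rw [h4, pow_one] at h6
          exact h6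
        rw [h5, one_pow]
      · have h5 : Fact (1 < p ^ n) := ⟨by
          have := Nat.pos_of_ne_zero (NeZero.ne (p ^ n))
          omega⟩
        rw [Units.val_one, ZMod.val_one, pow_one]
    apply h2
    rw [map_mul, map_mul, map_mul, map_inv, map_inv]
    rw [mul_comm (hζ.autToPow ℚ g), mul_assoc, mul_assoc, mul_inv_cancel_left, mul_inv_cancel]
  have h2 : g * h * g⁻¹ = (g * h * g⁻¹ * h⁻¹) * h := by group
  rw [h2]
  exact mul_mem h1 hh

end Pool.Agent.Helper832_MU
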