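import Pool.Agent.Helper832_MU.OrbP

/-!
# Detecting subfields for the cyclotomic `ℤ_p`-extension, with splitting conditions at `p`
-/

set_option autoImplicit false

namespace Pool.Agent.Helper832_MU

open NumberField Subgroup Module IntermediateField Pool.Agent.W569.FM
open Pool.Agent.Q60.MU (Qb isAlg_Qb isGalois_Qb IsSimple)
open Pool.Agent.R417.FK Pool.Agent.Helper832_EG Pool.Agent.W571.FM
open scoped Pointwise commutatorElement

/-- the inertia group -/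
def inr (P : Ideal (𝓞 Qb)) : Subgroup Gal(Qb/ℚ) where
  carrier := {σ | ∀ x : 𝓞 Qb, σ • x - x ∈ P}
  mul_mem' := fun {a b} ha hb x => by
    have h1 : (a * b) • x - x = (a • (b • x) - b • x) + (b • x - x) := by rw [mul_smul]; ring
    rw [h1]
    exact P.add_mem (ha _) (hb x)
  one_mem' := fun x => by rw [one_smul, sub_self]; exact P.zero_mem
  inv_mem' := fun {a} ha x => by
    have h1 : a⁻¹ • x - x = -(a • (a⁻¹ • x) - a⁻¹ • x) := by rw [smul_inv_smul]; ring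
    rw [h1]
    exact P.neg_mem (ha _)

open Classical in
/-- the decomposition group at `P` if `p ∈ P`, the inertia group otherwise -/
noncomputable def locG (p : ℕ) (P : Ideal (𝓞 Qb)) : Subgroup Gal(Qb/ℚ) :=
  if P.IsMaximal then (if (p : 𝓞 Qb) ∈ P then MulAction.stabilizer Gal(Qb/ℚ) P else inr P) else ⊥

theorem locG_p {p : ℕ} {P : Ideal (𝓞 Qb)} (hP : P.IsMaximal) (hp : (p : 𝓞 Qb) ∈ P) :
    locG p P = MulAction.stabilizer Gal(Qb/ℚ) P := by
  rw [locG, if_pos hP, if_pos hp]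

theorem locG_ne {p : ℕ} {P : Ideal (𝓞 Qb)} (hP : P.IsMaximal) (hp : (p : 𝓞 Qb) ∉ P) :
    locG p P = inr P := by
  rw [locG, if_pos hP, if_neg hp]

theorem locG_bot {p : ℕ} {P : Ideal (𝓞 Qb)} (hP : ¬ P.IsMaximal) : locG p P = ⊥ := by
  rw [locG, if_neg hP]

theorem locG_conj (p : ℕ) (g : Gal(Qb/ℚ)) (P : Ideal (𝓞 Qb)) :
    ∀ x ∈ locG p P, g * x * g⁻¹ ∈ locG p (g • P) := by
  intro x hx
  by_cases hP : P.IsMaximal
  · have hgP := smul_max hP g
    by_cases hp : (p : 𝓞 Qb) ∈ P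
    · rw [locG_p hP hp] at hx
      rw [locG_p hgP ((natCast_mem_smul g p).2 hp)]
      rw [MulAction.mem_stabilizer_iff] at hx ⊢
      rw [smul_smul, inv_mul_cancel_right, mul_smul, hx]
    · rw [locG_ne hP hp] at hx
      rw [locG_ne hgP (fun h => hp ((natCast_mem_smul g p).1 h))]
      intro y
      rw [mem_smul_iff]
      have h1 : g⁻¹ • ((g * x * g⁻¹) • y - y) = x • (g⁻¹ • y) - g⁻¹ • y := by
        rw [smul_sub, smul_smul, smul_smul]
        congr 2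
        group
      rw [h1]
      exact hx _
  · rw [locG_bot hP, Subgroup.mem_bot] at hx
    rw [hx, mul_one, mul_inv_cancel]
    exact one_mem _

theorem orb {p : ℕ} [hp : Fact p.Prime] (h2 : p ≠ 2) {P : Ideal (𝓞 Qb)} (hP : P.IsMaximal) :
    ∃ t : ℕ, ∀ L : IntermediateField ℚ Qb, L ≤ cycF p → FiniteDimensional ℚ L →
      ∃ T : Finset (Ideal (𝓞 Qb)), T.card ≤ t ∧ ∀ g : Gal(Qb/ℚ), ∃ u ∈ T, ∃ d ∈ L.fixingSubgroup,
        g • P = d • u := by
  classical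
  by_cases hpP : (p : 𝓞 Qb) ∈ P
  · refine ⟨1, fun L hL hfd => ⟨{P}, by simp, fun g => ⟨P, Finset.mem_singleton_self _, ?_⟩⟩⟩
    exact orb_p hP hpP L hL hfd g
  · exact orb_ne h2 hP hpP

theorem orb' {p : ℕ} [hp : Fact p.Prime] (h2 : p ≠ 2) (s : Ideal (𝓞 ℚ)) :
    ∃ t : ℕ, ∀ L : IntermediateField ℚ Qb, L ≤ cycF p → FiniteDimensional ℚ L →
      ∃ T : Finset (Ideal (𝓞 Qb)), T.card ≤ t ∧ ∀ P : Ideal (𝓞 Qb), P.IsMaximal → cm P = s →
        ∃ u ∈ T, ∃ d ∈ L.fixingSubgroup, P = d • u := by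
  classical
  by_cases h : ∃ P : Ideal (𝓞 Qb), P.IsMaximal ∧ cm P = s
  · obtain ⟨P₀, hP₀, rfl⟩ := h
    obtain ⟨t, ht⟩ := orb h2 hP₀
    refine ⟨t, fun L hL hfd => ?_⟩
    obtain ⟨T, hT, hT2⟩ := ht L hL hfd
    refine ⟨T, hT, fun P hP hcm => ?_⟩
    obtain ⟨g, hg⟩ := tr P₀ P hP₀ hP hcm.symm
    have h1 : P = g • P₀ := by
      ext x
      rw [hg, mem_smul_iff]
    rw [h1]
    exact hT2 g
  · refine ⟨0, fun L _ _ => ⟨∅, by simp, fun P hP hcm => (h ⟨P, hP, hcm⟩).elim⟩⟩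

theorem hram {p : ℕ} [hp : Fact p.Prime] (h2 : p ≠ 2) (N : IntermediateField ℚ Qb)
    [hN : FiniteDimensional ℚ N] : ∃ t : ℕ, ∀ L : IntermediateField ℚ Qb, L ≤ cycF p →
      FiniteDimensional ℚ L → ∃ T : Finset (Ideal (𝓞 Qb)), T.card ≤ t ∧
        ∀ P, locG p P ⊓ L.fixingSubgroup ≤ N.fixingSubgroup ∨ ∃ u ∈ T, ∃ d ∈ L.fixingSubgroup, P = d • u := by
  classical
  obtain ⟨S, hS, hS2⟩ := ram_fin N
  choose t ht using fun s => orb' h2 (p := p) s
  let S' : Finset (Ideal (𝓞 ℚ)) := insert (pl p) hS.toFinset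
  refine ⟨∑ s ∈ S', t s, fun L hL hfd => ?_⟩
  choose T hT hT2 using fun s => ht s L hL hfd
  refine ⟨S'.biUnion T, Finset.card_biUnion_le.trans (Finset.sum_le_sum fun s _ => hT s), fun P => ?_⟩
  by_cases hP : P.IsMaximal
  · by_cases hs : cm P ∈ S'
    · right
      obtain ⟨u, hu, d, hd, h3⟩ := hT2 (cm P) P hP rfl
      exact ⟨u, Finset.mem_biUnion.2 ⟨_, hs, hu⟩, d, hd, h3⟩
    · left
      have hpP : (p : 𝓞 Qb) ∉ P := fun h => hs (by
        rw [cm_p hp.out hP h]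
        exact Finset.mem_insert_self _ _)
      rw [locG_ne hP hpP]
      rintro σ ⟨hσ, -⟩
      by_contra hcon
      exact hs (Finset.mem_insert_of_mem (hS.mem_toFinset.2 (hS2 P hP σ hσ hcon)))
  · left
    rw [locG_bot hP]
    exact inf_le_left.trans bot_le

/-- Every finite extension `M` of `E` which is Galois over `E` with abelian Galois group of
exponent `p`, unramified at all primes and in which the primes above `p` split completely, has
degree at most `C` over `E`. -/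
def DegS (p : ℕ) (E : IntermediateField ℚ Qb) (C : ℕ) : Prop :=
  ∀ M : IntermediateField ℚ Qb, E ≤ M → FiniteDimensional ℚ M →
    (∀ σ ∈ E.fixingSubgroup, ∀ x ∈ M, σ x ∈ M) →
    (∀ σ ∈ E.fixingSubgroup, ∀ τ ∈ E.fixingSubgroup, ∀ x ∈ M, σ (τ x) = τ (σ x)) →
    (∀ σ ∈ E.fixingSubgroup, ∀ x ∈ M, (σ ^ p) x = x) →
    (∀ P : Ideal (𝓞 Qb), P.IsMaximal → ∀ σ ∈ E.fixingSubgroup, (∀ y : 𝓞 Qb, σ • y - y ∈ P) →
      ∀ x ∈ M, σ x = x) →
    (∀ P : Ideal (𝓞 Qb), P.IsMaximal → (p : 𝓞 Qb) ∈ P → ∀ σ ∈ E.fixingSubgroup,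
      (∀ y ∈ P, σ • y ∈ P) → ∀ x ∈ M, σ x = x) →
    finrank ℚ M ≤ C * finrank ℚ E

theorem degS_iff {p : ℕ} {E : IntermediateField ℚ Qb} {C : ℕ} : DegI p (locG p) E C ↔ DegS p E C := by
  constructor
  · intro h M h1 h2 h3 h4 h5 h6 h7
    refine h M h1 h2 h3 h4 h5 fun P σ hσ hσE => ?_
    by_cases hP : P.IsMaximal
    · by_cases hp : (p : 𝓞 Qb) ∈ P
      · rw [locG_p hP hp] at hσ
        refine h7 P hP hp σ hσE fun y hy => ?_
        have h8 : σ • P = P := hσ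
        rw [← h8, mem_smul_iff, inv_smul_smul]
        exact hy
      · rw [locG_ne hP hp] at hσ
        exact h6 P hP σ hσE hσ
    · rw [locG_bot hP, Subgroup.mem_bot] at hσ
      intro x _
      rw [hσ]
      rfl
  · intro h M h1 h2 h3 h4 h5 h6
    refine h M h1 h2 h3 h4 h5 (fun P hP σ hσE hσ => ?_) (fun P hP hp σ hσE hσ => ?_)
    · refine h6 P σ ?_ hσE
      by_cases hp : (p : 𝓞 Qb) ∈ P
      · rw [locG_p hP hp]
        show σ • P = P
        refine smul_eq_of_le hP fun x hx => ?_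
        have h7 : σ • x = (σ • x - x) + x := by ring
        rw [h7]
        exact P.add_mem (hσ x) hx
      · rw [locG_ne hP hp]
        exact hσ
    · refine h6 P σ ?_ hσE
      rw [locG_p hP hp]
      exact smul_eq_of_le hP hσ

/-- `L` is a layer of the cyclotomic `ℤ_p`-extension of `ℚ` (`p` odd). -/
def IsLayer (p : ℕ) (L : IntermediateField ℚ Qb) : Prop := L ≤ cycF p ∧ ∃ n, finrank ℚ L = p ^ n

/-- the degrees are bounded in the cyclotomic `ℤ_p`-extension of `F` -/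
def MuZ (p : ℕ) (F : IntermediateField ℚ Qb) : Prop :=
  ∃ C, ∀ L, IsLayer p L → DegS p (F ⊔ L) C

theorem IsLayer.fd {p : ℕ} [hp : Fact p.Prime] {L : IntermediateField ℚ Qb} (h : IsLayer p L) :
    FiniteDimensional ℚ L := by
  obtain ⟨n, hn⟩ := h.2
  apply FiniteDimensional.of_finrank_pos
  rw [hn]
  exact pow_pos hp.out.pos n

theorem cyc_detect {p : ℕ} [hp : Fact p.Prime] (h2 : p ≠ 2)
    (N : IntermediateField ℚ Qb) (hN : FiniteDimensional ℚ N) (hNn : IsGalois ℚ N)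
    (𝓔 : Set (IntermediateField ℚ Qb)) (h𝓔 : ∀ E ∈ 𝓔, E ≤ N)
    (hdet : ∀ (S : Type) [AddCommGroup S] [Module (ZMod p) S] [Module.Finite (ZMod p) S]
      (τ : Representation (ZMod p) Gal(Qb/ℚ) S), (∀ g ∈ N.fixingSubgroup, ∀ x, τ g x = x) →
      IsSimple τ → ∃ E ∈ 𝓔, ∃ v : S, v ≠ 0 ∧ ∀ g ∈ E.fixingSubgroup, τ g v = v)
    (hmu : ∀ E ∈ 𝓔, MuZ p E) (F : IntermediateField ℚ Qb) (hF : F ≤ N) : MuZ p F := by
  by_contra hcon
  unfold MuZ at hcon
  push Not at hcon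
  choose R hR hRC using hcon
  have hfd : ∀ m, FiniteDimensional ℚ (R m) := fun m => (hR m).fd
  obtain ⟨t, ht⟩ := hram h2 N
  obtain ⟨C, hC⟩ := detect_gen (I := locG p) (locG_conj p) p R hfd
    (fun m => isGalois_of_le (hR m).1 (hfd m)) N hN hNn
    ⟨t, fun m => ht (R m) (hR m).1 (hfd m)⟩ 𝓔 h𝓔 hdet (fun E hE => by
      obtain ⟨C, hC⟩ := hmu E hE
      exact ⟨C, fun m => degS_iff.2 (hC _ (hR m))⟩) F hF
  exact hRC C (degS_iff.1 (hC C))

end Pool.Agent.Helper832_MU
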