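import Pool.Agent.Helper832_MU.Rel

/-!
# Relative detection, for a general family of local groups
-/

set_option autoImplicit false

namespace Pool.Agent.Helper832_MU

open NumberField Subgroup Module IntermediateField
open Pool.Agent.Q60.MU (Qb isAlg_Qb isGalois_Qb IsSimple stab mem_stab fix_fixed finite_fixed index_ne_zero' RankLe Mu0
  reduction)
open scoped Pointwise commutatorElement

/-- the degrees are bounded in the cyclotomic `ℤ_p`-extension of `F` -/
def MuI (p : ℕ) (I : Ideal (𝓞 Qb) → Subgroup Gal(Qb/ℚ)) (F : IntermediateField ℚ Qb) : Prop :=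
  ∃ C, ∀ L, IsLayer p L → DegI p I (F ⊔ L) C

/-- Subfields. -/
theorem MuI.mono {p : ℕ} [hp : Fact p.Prime] {I : Ideal (𝓞 Qb) → Subgroup Gal(Qb/ℚ)} {E F : IntermediateField ℚ Qb} (hEF : E ≤ F)
    (hF : FiniteDimensional ℚ F) (h : MuI p I F) : MuI p I E := by
  obtain ⟨C, hC⟩ := h
  have hE := le_fd hEF hF
  refine ⟨C * F.fixingSubgroup.relIndex E.fixingSubgroup, fun L hL => ?_⟩
  have hLf := hL.fd
  have h1 := (rankLe_iff' (I := I) (F ⊔ L) C).2 (hC L hL)
  rw [← rankLe_iff']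
  rw [fixingSubgroup_sup] at h1 ⊢
  have hle : F.fixingSubgroup ≤ E.fixingSubgroup := fixingSubgroup_le hEF
  have hr : F.fixingSubgroup.relIndex E.fixingSubgroup ≠ 0 := by
    intro h0
    have h2 := relIndex_mul_index hle
    rw [h0, zero_mul] at h2
    exact index_ne_zero' F h2.symm
  have h2 : (F.fixingSubgroup ⊓ L.fixingSubgroup).relIndex (E.fixingSubgroup ⊓ L.fixingSubgroup) =
      F.fixingSubgroup.relIndex (E.fixingSubgroup ⊓ L.fixingSubgroup) := by
    rw [← inf_relIndex_right, ← inf_relIndex_right F.fixingSubgroup]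
    congr 1
    ext x
    simp only [Subgroup.mem_inf]
    tauto
  have h3 : F.fixingSubgroup.relIndex (E.fixingSubgroup ⊓ L.fixingSubgroup) ≤
      F.fixingSubgroup.relIndex E.fixingSubgroup := relIndex_le_of_le_right inf_le_left hr
  have h4 : F.fixingSubgroup.relIndex (E.fixingSubgroup ⊓ L.fixingSubgroup) ≠ 0 :=
    fun h5 => hr (relIndex_eq_zero_of_le_right inf_le_left h5)
  refine (RankLe.of_le (inf_le_inf_right _ hle) (by
    rw [Subgroup.coe_inf]
    exact F.fixingSubgroup_isOpen.inter L.fixingSubgroup_isOpen) (by rw [h2]; exact h4) h1).mono ?_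
  rw [h2]
  exact Nat.mul_le_mul_left _ h3

theorem rel_detect_gen {p : ℕ} [hp : Fact p.Prime] (h2 : p ≠ 2) {I : Ideal (𝓞 Qb) → Subgroup Gal(Qb/ℚ)}
    (hIc : ∀ (g : Gal(Qb/ℚ)) (P : Ideal (𝓞 Qb)), ∀ x ∈ I P, g * x * g⁻¹ ∈ I (g • P))
    (hIle : ∀ P, I P ≤ locG p P) (k M : IntermediateField ℚ Qb) (hkM : k ≤ M)
    (hM : FiniteDimensional ℚ M) (hGal : ∀ σ ∈ k.fixingSubgroup, ∀ x ∈ M, σ x ∈ M)
    (hdet : ∀ (S : Type) [AddCommGroup S] [Module (ZMod p) S] [Module.Finite (ZMod p) S]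
      (τ : Representation (ZMod p) k.fixingSubgroup S),
      (∀ g : k.fixingSubgroup, (g : Gal(Qb/ℚ)) ∈ M.fixingSubgroup → ∀ x, τ g x = x) → IsSimple τ →
      ∃ E : IntermediateField ℚ Qb, k ≤ E ∧ E ≤ M ∧ MuI p I E ∧
        ∃ v : S, v ≠ 0 ∧ ∀ g : k.fixingSubgroup, (g : Gal(Qb/ℚ)) ∈ E.fixingSubgroup → τ g v = v) :
    MuI p I M := by
  by_contra hcon
  unfold MuI at hcon
  push Not at hcon
  choose R hR hRC using hcon
  have hfd : ∀ m, FiniteDimensional ℚ (R m) := fun m => (hR m).fd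
  have hRg : ∀ m, IsGalois ℚ (R m) := fun m => isGalois_of_le (hR m).1 (hfd m)
  have hkfd := le_fd hkM hM
  obtain ⟨t, ht⟩ := hram h2 M
  set H : Subgroup Gal(Qb/ℚ) := k.fixingSubgroup with hHdef
  have hHo : IsOpen (H : Set Gal(Qb/ℚ)) := k.fixingSubgroup_isOpen
  have hHi : H.index ≠ 0 := index_ne_zero' k
  have hMH : M.fixingSubgroup ≤ H := fixingSubgroup_le hkM
  have hidx : ∀ A : Subgroup Gal(Qb/ℚ), A.index ≠ 0 → (A.subgroupOf H).index ≠ 0 := by
    intro A hA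
    have : A.FiniteIndex := ⟨hA⟩
    exact FiniteIndex.index_ne_zero
  have hMn : (M.fixingSubgroup.subgroupOf H).Normal := by
    refine ⟨fun x hx g => ?_⟩
    rw [mem_subgroupOf] at hx ⊢
    refine (IntermediateField.mem_fixingSubgroup_iff _ _).2 fun y hy => ?_
    have h1 : (g : Gal(Qb/ℚ))⁻¹ y ∈ M := hGal _ (H.inv_mem g.2) y hy
    have h3 := (IntermediateField.mem_fixingSubgroup_iff _ _).1 hx _ h1
    show ((g : Gal(Qb/ℚ)) * (x : Gal(Qb/ℚ)) * (g : Gal(Qb/ℚ))⁻¹) y = y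
    rw [AlgEquiv.mul_apply, AlgEquiv.mul_apply, h3, ← AlgEquiv.mul_apply, mul_inv_cancel,
      AlgEquiv.one_apply]
  have hred := reduction (𝔾 := H) (p := p) (Ω := Ideal (𝓞 Qb)) (I := fun w => (I w).subgroupOf H)
    (fun g w x hx => hIc (g : Gal(Qb/ℚ)) w (x : Gal(Qb/ℚ)) hx)
    (Dm := fun m => (R m).fixingSubgroup.subgroupOf H)
    (fun m => ⟨fun x hx g => ((InfiniteGalois.normal_iff_isGalois (R m)).2 (hRg m)).conj_mem _ hx _⟩)
    (fun m => by
      have := hfd m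
      exact ((R m).fixingSubgroup_isOpen).preimage continuous_subtype_val)
    (fun m => by
      have := hfd m
      exact hidx _ (index_ne_zero' (R m)))
    (K := M.fixingSubgroup.subgroupOf H) hMn (M.fixingSubgroup_isOpen.preimage continuous_subtype_val)
    (hidx _ (index_ne_zero' M)) ?_ ?_
  · obtain ⟨C, hC⟩ := hred
    refine hRC C ?_
    have hRf := hfd C
    have h3 := (rank_sub hHo I _ C).1 (hC C)
    rw [map_inf_sub hMH] at h3
    rw [← rankLe_iff', fixingSubgroup_sup]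
    exact h3
  · refine ⟨t * H.index, fun m => ?_⟩
    obtain ⟨T, hT, hT2⟩ := ht (R m) (hR m).1 (hfd m)
    obtain ⟨T', hT', hT2'⟩ := hram_sub (D := (R m).fixingSubgroup) hHi T
    refine ⟨T', hT'.trans (Nat.mul_le_mul_right _ hT), fun w => ?_⟩
    rcases hT2 w with h | ⟨u, hu, d, hd, h⟩
    · left
      rintro x ⟨hx1, hx2⟩
      exact h ⟨hIle w hx1, hx2⟩
    · right
      obtain ⟨u', hu', d', hd', h'⟩ := hT2' u hu d hd
      exact ⟨u', hu', ⟨d', hd'.1⟩, hd'.2, h.trans h'⟩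
  · intro S _ _ _ τ hτ hs
    obtain ⟨E, hkE, hEM, ⟨C, hC⟩, v, hv, hfix⟩ := hdet S τ (fun g hg x => hτ g hg x) hs
    have hEf := le_fd hEM hM
    refine ⟨E.fixingSubgroup.subgroupOf H, ⟨fun x hx => fixingSubgroup_le hEM hx, C, fun m => ?_⟩, v, hv,
      fun g hg => hfix g hg⟩
    have hRf := hfd m
    rw [rank_sub hHo I, map_inf_sub (fixingSubgroup_le hkE)]
    have h3 := (rankLe_iff' (I := I) (E ⊔ R m) C).2 (hC _ (hR m))
    rw [fixingSubgroup_sup] at h3
    exact h3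

end Pool.Agent.Helper832_MU
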