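import Pool.Agent.Helper832_MU.Gen

/-!
# Involutions and minimal counterexamples
-/

set_option autoImplicit false

namespace Pool.Agent.Helper832_MU

open NumberField Subgroup Module IntermediateField
open Pool.Agent.Q60.MU (Qb isAlg_Qb isGalois_Qb IsSimple stab mem_stab fix_fixed finite_fixed index_ne_zero' RankLe Mu0
  reduction)
open scoped Pointwise commutatorElement

/-- the field of a subgroup of `Gal(Qb/k)` containing `Gal(Qb/M)` -/
theorem field_of_sub {k M : IntermediateField ℚ Qb} (hkM : k ≤ M) (hM : FiniteDimensional ℚ M)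
    (A : Subgroup k.fixingSubgroup) (hA : ∀ g : k.fixingSubgroup, (g : Gal(Qb/ℚ)) ∈ M.fixingSubgroup → g ∈ A) :
    k ≤ fixedField (A.map k.fixingSubgroup.subtype) ∧ fixedField (A.map k.fixingSubgroup.subtype) ≤ M ∧
    ∀ g : k.fixingSubgroup, (g : Gal(Qb/ℚ)) ∈ (fixedField (A.map k.fixingSubgroup.subtype)).fixingSubgroup ↔ g ∈ A := by
  have hle : M.fixingSubgroup ≤ A.map k.fixingSubgroup.subtype := fun g hg =>
    ⟨⟨g, fixingSubgroup_le hkM hg⟩, hA _ hg, rfl⟩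
  have hWo : IsOpen ((A.map k.fixingSubgroup.subtype : Subgroup Gal(Qb/ℚ)) : Set Gal(Qb/ℚ)) :=
    Subgroup.isOpen_mono hle M.fixingSubgroup_isOpen
  refine ⟨(le_iff_le _ _).2 (map_subtype_le A), ?_, fun g => ?_⟩
  · rw [← InfiniteGalois.fixedField_fixingSubgroup M]
    exact fixedField_antitone hle
  · rw [fix_fixed hWo]
    constructor
    · rintro ⟨a, ha, hag⟩
      rwa [← Subtype.ext hag]
    · intro hg
      exact ⟨g, hg, rfl⟩

theorem comm_mem {G : Type} [Group G] {H : Subgroup G} (A : Subgroup H) (s c : H)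
    (h : s * c * s⁻¹ * c⁻¹ ∈ A) : (s : G) * (c : G) * (s : G)⁻¹ * (c : G)⁻¹ ∈ A.map H.subtype :=
  ⟨_, h, rfl⟩

theorem comm_act {F : Type} [Field F] {G : Type} [Group G] {V : Type} [AddCommGroup V] [Module F V]
    (ρ : Representation F G V) (s c : G) (hc : ∀ x, ρ c x = -x) (x : V) : ρ (s * c * s⁻¹ * c⁻¹) x = x := by
  have hc' : ∀ x, ρ c⁻¹ x = -x := by
    intro x
    have h7 : ρ c⁻¹ (ρ c (-x)) = -x := by
      rw [← Module.End.mul_apply, ← map_mul, inv_mul_cancel, map_one, Module.End.one_apply]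
    rwa [hc, neg_neg] at h7
  rw [map_mul, map_mul, map_mul, Module.End.mul_apply, Module.End.mul_apply, Module.End.mul_apply,
    hc', hc, map_neg, map_neg, map_neg, neg_neg, ← Module.End.mul_apply, ← map_mul, mul_inv_cancel, map_one]
  rfl

/-- the kernel of a representation -/
def kerS {F : Type} [Field F] {G : Type} [Group G] {V : Type} [AddCommGroup V] [Module F V]
    (ρ : Representation F G V) : Subgroup G where
  carrier := {g | ∀ v, ρ g v = v}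
  mul_mem' := by
    intro a b ha hb v
    rw [map_mul, Module.End.mul_apply, hb v, ha v]
  one_mem' := by
    intro v
    rw [map_one]
    rfl
  inv_mem' := by
    intro a ha v
    calc ρ a⁻¹ v = ρ a⁻¹ (ρ a v) := by rw [ha v]
      _ = ρ (a⁻¹ * a) v := by rw [map_mul, Module.End.mul_apply]
      _ = v := by
        rw [inv_mul_cancel, map_one]
        rfl

theorem mem_kerS {F : Type} [Field F] {G : Type} [Group G] {V : Type} [AddCommGroup V] [Module F V]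
    {ρ : Representation F G V} {g : G} : g ∈ kerS ρ ↔ ∀ v, ρ g v = v := Iff.rfl

variable {p : ℕ} [hp : Fact p.Prime] {I : Ideal (𝓞 Qb) → Subgroup Gal(Qb/ℚ)}

theorem inv_detect (h2 : p ≠ 2)
    (hIc : ∀ (g : Gal(Qb/ℚ)) (P : Ideal (𝓞 Qb)), ∀ x ∈ I P, g * x * g⁻¹ ∈ I (g • P))
    (hIle : ∀ P, I P ≤ locG p P) (k M : IntermediateField ℚ Qb) (hkM : k ≤ M)
    (hM : FiniteDimensional ℚ M) (hGal : ∀ σ ∈ k.fixingSubgroup, ∀ x ∈ M, σ x ∈ M)
    (c : Gal(Qb/ℚ)) (hck : c ∈ k.fixingSubgroup) (hc2 : c * c ∈ M.fixingSubgroup)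
    (h1 : MuI p I (M ⊓ fixedField (zpowers c)))
    (h3 : MuI p I (M ⊓ fixedField (closure {g | ∃ σ ∈ k.fixingSubgroup, g = σ * c * σ⁻¹ * c⁻¹}))) :
    MuI p I M := by
  refine rel_detect_gen h2 hIc hIle k M hkM hM hGal ?_
  intro S _ _ _ τ hτ hs
  have hnt : Nontrivial S := hs.1
  have hcc : ∀ x, τ ⟨c, hck⟩ (τ ⟨c, hck⟩ x) = x := by
    intro x
    rw [← Module.End.mul_apply, ← map_mul]
    exact hτ _ hc2 x
  by_cases h : ∃ v : S, v ≠ 0 ∧ τ ⟨c, hck⟩ v = v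
  · obtain ⟨v, hv, hcv⟩ := h
    obtain ⟨h4, h5, h6⟩ := field_of_sub hkM hM (stab τ v) (fun g hg => hτ g hg v)
    refine ⟨_, h4, h5, MuI.mono (le_inf h5 ?_) (le_fd inf_le_left hM) h1, v, hv, fun g hg => (h6 g).1 hg⟩
    refine fixedField_antitone ?_
    rw [zpowers_le]
    exact ⟨⟨c, hck⟩, hcv, rfl⟩
  · push Not at h
    have hneg : ∀ x, τ ⟨c, hck⟩ x = -x := by
      intro x
      by_contra hx
      refine h (τ ⟨c, hck⟩ x + x) (fun h0 => hx (eq_neg_of_add_eq_zero_left h0)) ?_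
      rw [map_add, hcc, add_comm]
    obtain ⟨h4, h5, h6⟩ := field_of_sub hkM hM (kerS τ) (fun g hg => hτ g hg)
    obtain ⟨v, hv⟩ := exists_ne (0 : S)
    refine ⟨_, h4, h5, MuI.mono (le_inf h5 ?_) (le_fd inf_le_left hM) h3, v, hv, fun g hg => ?_⟩
    · refine fixedField_antitone ?_
      rw [closure_le]
      rintro _ ⟨σ, hσ, rfl⟩
      exact comm_mem (kerS τ) ⟨σ, hσ⟩ ⟨c, hck⟩ (mem_kerS.2 fun x => comm_act τ _ _ hneg x)
    · exact (h6 g).1 hg v

theorem min_free (h2 : p ≠ 2)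
    (hIc : ∀ (g : Gal(Qb/ℚ)) (P : Ideal (𝓞 Qb)), ∀ x ∈ I P, g * x * g⁻¹ ∈ I (g • P))
    (hIle : ∀ P, I P ≤ locG p P) (k M : IntermediateField ℚ Qb) (hkM : k ≤ M)
    (hM : FiniteDimensional ℚ M) (hGal : ∀ σ ∈ k.fixingSubgroup, ∀ x ∈ M, σ x ∈ M)
    (hprop : ∀ E : IntermediateField ℚ Qb, k ≤ E → E < M → MuI p I E) (hnot : ¬ MuI p I M) :
    ∃ (S : Type) (_ : AddCommGroup S) (_ : Module (ZMod p) S) (_ : Module.Finite (ZMod p) S)
      (τ : Representation (ZMod p) k.fixingSubgroup S), IsSimple τ ∧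
      (∀ g : k.fixingSubgroup, (g : Gal(Qb/ℚ)) ∈ M.fixingSubgroup → ∀ x, τ g x = x) ∧
      (∀ g : k.fixingSubgroup, (g : Gal(Qb/ℚ)) ∉ M.fixingSubgroup → ∀ v, τ g v = v → v = 0) := by
  by_contra hcon
  refine hnot (rel_detect_gen h2 hIc hIle k M hkM hM hGal ?_)
  intro S i1 i2 i3 τ hτ hs
  have h : ∃ g : k.fixingSubgroup, (g : Gal(Qb/ℚ)) ∉ M.fixingSubgroup ∧ ∃ v, τ g v = v ∧ v ≠ 0 := by
    by_contra h0
    push Not at h0
    exact hcon ⟨S, i1, i2, i3, τ, hs, hτ, h0⟩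
  obtain ⟨g, hgM, v, hgv, hv⟩ := h
  obtain ⟨h4, h5, h6⟩ := field_of_sub hkM hM (stab τ v) (fun g hg => hτ g hg v)
  refine ⟨_, h4, h5, hprop _ h4 (lt_of_le_of_ne h5 fun h7 => hgM ?_), v, hv, fun g hg => (h6 g).1 hg⟩
  rw [← h7]
  exact (h6 g).2 hgv

end Pool.Agent.Helper832_MU
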