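import Mathlib
import Pool.Agent.H637R2.Leo.Crit

/-!
# Leopoldt's conjecture and the real subfield: units of a subfield
-/

set_option autoImplicit false

namespace Pool.Agent.Helper832_MU.LeoR

open NumberField Filter Topology Pool.Agent.H637R2.Leo
open NumberField.Units (torsion fundSystem rank)

section field

variable {F : Type} [Field F] [NumberField F]

theorem exists_T (p : ℕ) [hp : Fact p.Prime] : ∃ T : ℕ, T ≠ 0 ∧
    (∀ u : (𝓞 F)ˣ, (((u ^ T : (𝓞 F)ˣ) : 𝓞 F) - 1) ∈ (Ideal.span {((p : ℕ) : 𝓞 F)}).radical) ∧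
    ∀ ζ ∈ torsion F, ζ ^ T = 1 := by
  set I : Ideal (𝓞 F) := Ideal.span {((p : ℕ) : 𝓞 F)} with hI
  have hI0 : I ≠ ⊥ := by
    rw [hI, Ne, Ideal.span_singleton_eq_bot]
    exact_mod_cast hp.out.ne_zero
  have hfin : Finite (𝓞 F ⧸ I) := Ideal.finiteQuotientOfFreeOfNeBot _ hI0
  have hfu : Finite (𝓞 F ⧸ I)ˣ := inferInstance
  have hft : Finite (torsion F) := inferInstance
  refine ⟨Nat.card (torsion F) * Nat.card (𝓞 F ⧸ I)ˣ, mul_ne_zero Nat.card_pos.ne' Nat.card_pos.ne', ?_, ?_⟩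
  · intro u
    refine Ideal.le_radical ?_
    rw [← Ideal.Quotient.eq_zero_iff_mem, map_sub, map_one, sub_eq_zero]
    have h1 : (Units.map (Ideal.Quotient.mk I : 𝓞 F →* 𝓞 F ⧸ I) (u ^ Nat.card (torsion F))) ^
        Nat.card (𝓞 F ⧸ I)ˣ = 1 := pow_card_eq_one'
    rw [← map_pow, ← pow_mul] at h1
    exact congrArg (Units.val) h1
  · intro ζ hζ
    have h1 : (⟨ζ, hζ⟩ : torsion F) ^ Nat.card (torsion F) = 1 := pow_card_eq_one'
    have h2 : ζ ^ Nat.card (torsion F) = 1 := congrArg Subtype.val h1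
    rw [pow_mul, h2, one_pow]

theorem fund_indep (c : Fin (rank F) → ℤ) (ζ : (𝓞 F)ˣ) (hζ : ζ ∈ torsion F)
    (h : ζ * ∏ i, (fundSystem F i) ^ c i = 1) : c = 0 := by
  have h1 := NumberField.Units.fun_eq_repr F (x := 1) (f := c) hζ h.symm
  have h2 := NumberField.Units.fun_eq_repr F (x := 1) (ζ := 1) (f := 0) (one_mem _) (by simp)
  rw [h1, h2]

theorem zpow_sum' {A ι : Type} [CommGroup A] (a : A) (s : Finset ι) (g : ι → ℤ) :
    ∏ x ∈ s, a ^ g x = a ^ (∑ x ∈ s, g x) := by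
  classical
  induction s using Finset.induction_on with
  | empty => simp
  | insert b s hb ih => rw [Finset.prod_insert hb, Finset.sum_insert hb, zpow_add, ih]

theorem prod_zpow_sum {A ι κ : Type} [CommGroup A] [Fintype ι] [Fintype κ] (f : κ → A) (B : ι → κ → ℤ)
    (m : ι → ℤ) : ∏ i, (∏ j, f j ^ B i j) ^ m i = ∏ j, f j ^ (∑ i, m i * B i j) := by
  have h1 : ∀ i, (∏ j, f j ^ B i j) ^ m i = ∏ j, f j ^ (m i * B i j) := by
    intro i
    rw [← Finset.prod_zpow]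
    exact Finset.prod_congr rfl fun j _ => by rw [← zpow_mul, mul_comm]
  simp_rw [h1]
  rw [Finset.prod_comm]
  refine Finset.prod_congr rfl fun j _ => ?_
  exact zpow_sum' _ _ _

theorem field_level (p : ℕ) [hp : Fact p.Prime] (hF : Leopoldt F p) {n : ℕ} (η : Fin n → (𝓞 F)ˣ)
    (ζ : Fin n → (𝓞 F)ˣ) (hζ : ∀ i, ζ i ∈ torsion F) (B : Fin n → Fin (rank F) → ℤ)
    (hB : ∀ i, η i = ζ i * ∏ j, (fundSystem F j) ^ B i j)
    (a : Fin n → PadicInt p) (m : ℕ → Fin n → ℤ)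
    (hm : ∀ i, Tendsto (fun k => ((m k i : ℤ) : PadicInt p)) atTop (𝓝 (a i)))
    (hx : ∀ N : ℕ, ∀ᶠ k in atTop,
      ((p : ℕ) : 𝓞 F) ^ N ∣ (((∏ i, η i ^ m k i : (𝓞 F)ˣ) : 𝓞 F) - 1)) :
    ∀ j, ∑ i, a i * (B i j : PadicInt p) = 0 := by
  obtain ⟨T, hT0, hT1, hT2⟩ := exists_T (F := F) p
  have h := hF (rank F) (fun j => (fundSystem F j) ^ T) (fun j => hT1 _) ?_
    (fun j => ∑ i, a i * (B i j : PadicInt p)) (fun k j => ∑ i, m k i * B i j) ?_ ?_
  · intro j
    exact congrFun h j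
  · intro c hc
    have h1 : ∏ j, (fundSystem F j) ^ ((T : ℤ) * c j) = 1 := by
      rw [← hc]
      refine Finset.prod_congr rfl fun j _ => ?_
      rw [zpow_mul, zpow_natCast]
    have h2 := fund_indep (F := F) (fun j => (T : ℤ) * c j) 1 (one_mem _) (by rw [one_mul]; exact h1)
    funext j
    have h3 := congrFun h2 j
    have h4 : (T : ℤ) * c j = 0 := h3
    exact (mul_eq_zero.1 h4).resolve_left (by exact_mod_cast hT0)
  · intro j
    have h1 : (fun k => (((∑ i, m k i * B i j : ℤ) : ℤ) : PadicInt p)) =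
        fun k => ∑ i, ((m k i : ℤ) : PadicInt p) * (B i j : PadicInt p) := by
      funext k
      push_cast
      rfl
    rw [h1]
    exact tendsto_finset_sum _ fun i _ => (hm i).mul_const _
  · intro N
    filter_upwards [hx N] with k hk
    have h1 : (∏ j, ((fundSystem F j) ^ T) ^ (∑ i, m k i * B i j) : (𝓞 F)ˣ) = (∏ i, η i ^ m k i) ^ T := by
      have h2 : ∏ i, η i ^ m k i = (∏ i, ζ i ^ m k i) * ∏ j, (fundSystem F j) ^ (∑ i, m k i * B i j) := by
        rw [← prod_zpow_sum, ← Finset.prod_mul_distrib]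
        refine Finset.prod_congr rfl fun i _ => ?_
        rw [hB i, mul_zpow]
      have h3 : (∏ i, ζ i ^ m k i) ^ T = 1 := by
        refine hT2 _ ?_
        exact Subgroup.prod_mem _ fun i _ => Subgroup.zpow_mem _ (hζ i) _
      rw [h2, mul_pow, h3, one_mul, ← Finset.prod_pow]
      refine Finset.prod_congr rfl fun j _ => ?_
      rw [← zpow_natCast, ← zpow_natCast, ← zpow_mul, ← zpow_mul, mul_comm]
    rw [h1]
    refine hk.trans ?_
    rw [Units.val_pow_eq_pow_val]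
    exact sub_one_dvd_pow_sub_one _ _

end field

end Pool.Agent.Helper832_MU.LeoR
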