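import Pool.Agent.Helper832_MU.LeoA

/-!
# Leopoldt's conjecture and the real subfield
-/

set_option autoImplicit false

namespace Pool.Agent.Helper832_MU.LeoR

open NumberField Filter Topology Pool.Agent.H637R2.Leo
open NumberField.Units (torsion fundSystem rank)

variable {K : Type} [Field K] [NumberField K]

/-- the elements of real image -/
def realSub (φ : K →+* ℂ) : IntermediateField ℚ K where
  carrier := {x | (φ x).im = 0}
  mul_mem' := fun {a b} ha hb => by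
    have ha' : (φ a).im = 0 := ha
    have hb' : (φ b).im = 0 := hb
    show (φ (a * b)).im = 0
    rw [map_mul, Complex.mul_im, ha', hb', mul_zero, zero_mul, add_zero]
  add_mem' := fun {a b} ha hb => by
    have ha' : (φ a).im = 0 := ha
    have hb' : (φ b).im = 0 := hb
    show (φ (a + b)).im = 0
    rw [map_add, Complex.add_im, ha', hb', add_zero]
  algebraMap_mem' := fun r => by
    show (φ (algebraMap ℚ K r)).im = 0
    rw [eq_ratCast, map_ratCast]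
    exact Complex.ratCast_im r
  inv_mem' := fun a ha => by
    have ha' : (φ a).im = 0 := ha
    show (φ a⁻¹).im = 0
    rw [map_inv₀, Complex.inv_im, ha', neg_zero, zero_div]

/-- the inclusion of the units -/
noncomputable def inc (F : IntermediateField ℚ K) : (𝓞 F)ˣ →* (𝓞 K)ˣ :=
  Units.map (algebraMap (𝓞 F) (𝓞 K) : 𝓞 F →* 𝓞 K)

theorem inc_coe (F : IntermediateField ℚ K) (w : (𝓞 F)ˣ) :
    ((inc F w : (𝓞 K)ˣ) : 𝓞 K) = algebraMap (𝓞 F) (𝓞 K) (w : 𝓞 F) := rfl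

theorem inc_coe' (F : IntermediateField ℚ K) (w : 𝓞 F) :
    ((algebraMap (𝓞 F) (𝓞 K) w : 𝓞 K) : K) = ((w : F) : K) := rfl

theorem inc_inj (F : IntermediateField ℚ K) : Function.Injective (inc F) := by
  intro a b h
  refine Units.ext (RingOfIntegers.ext (Subtype.ext ?_))
  have h1 := congrArg (fun z : (𝓞 K)ˣ => ((z : 𝓞 K) : K)) h
  exact h1

theorem int_down (F : IntermediateField ℚ K) (x : F) (h : IsIntegral ℤ (x : K)) : IsIntegral ℤ x :=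
  (isIntegral_algebraMap_iff (algebraMap F K).injective).1 h

theorem down_unit (F : IntermediateField ℚ K) (v : (𝓞 K)ˣ) (hv : ((v : 𝓞 K) : K) ∈ F) :
    ∃ w : (𝓞 F)ˣ, inc F w = v := by
  have hinv : ((v : 𝓞 K) : K) * (((v⁻¹ : (𝓞 K)ˣ) : 𝓞 K) : K) = 1 := by
    have h1 : (v : 𝓞 K) * ((v⁻¹ : (𝓞 K)ˣ) : 𝓞 K) = 1 := v.mul_inv
    have h2 := congrArg (fun z : 𝓞 K => (z : K)) h1
    simpa using h2
  have hv' : (((v⁻¹ : (𝓞 K)ˣ) : 𝓞 K) : K) ∈ F := by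
    rw [eq_inv_of_mul_eq_one_right hinv]
    exact inv_mem hv
  let x : 𝓞 F := ⟨⟨_, hv⟩, int_down F _ (v : 𝓞 K).2⟩
  let y : 𝓞 F := ⟨⟨_, hv'⟩, int_down F _ ((v⁻¹ : (𝓞 K)ˣ) : 𝓞 K).2⟩
  have hxy : x * y = 1 := RingOfIntegers.ext (Subtype.ext hinv)
  refine ⟨⟨x, y, hxy, by rw [mul_comm]; exact hxy⟩, ?_⟩
  exact Units.ext (RingOfIntegers.ext rfl)

theorem down_dvd (F : IntermediateField ℚ K) {p : ℕ} (hp : p ≠ 0) (N : ℕ) (z : 𝓞 F)
    (h : ((p : ℕ) : 𝓞 K) ^ N ∣ algebraMap (𝓞 F) (𝓞 K) z) : ((p : ℕ) : 𝓞 F) ^ N ∣ z := by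
  obtain ⟨y, hy⟩ := h
  have hpK : ((p : K)) ^ N ≠ 0 := pow_ne_zero _ (Nat.cast_ne_zero.2 hp)
  have h1 : ((z : F) : K) = (p : K) ^ N * (y : K) := by
    have h2 := congrArg (algebraMap (𝓞 K) K) hy
    rw [map_mul, map_pow, map_natCast] at h2
    exact h2
  have hyF : (y : K) ∈ F := by
    have h2 : (y : K) = ((z : F) : K) / (p : K) ^ N := by
      rw [h1, mul_div_cancel_left₀ _ hpK]
    rw [h2]
    exact div_mem (z : F).2 (pow_mem (natCast_mem F p) N)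
  refine ⟨⟨⟨_, hyF⟩, int_down F _ y.2⟩, RingOfIntegers.ext (Subtype.ext ?_)⟩
  rw [h1]
  simp

theorem up_rad (F : IntermediateField ℚ K) {p : ℕ} (x : 𝓞 F)
    (h : x ∈ (Ideal.span {((p : ℕ) : 𝓞 F)}).radical) :
    algebraMap (𝓞 F) (𝓞 K) x ∈ (Ideal.span {((p : ℕ) : 𝓞 K)}).radical := by
  obtain ⟨n, hn⟩ := h
  refine ⟨n, ?_⟩
  rw [Ideal.mem_span_singleton] at hn ⊢
  rw [← map_pow]
  have h1 := map_dvd (algebraMap (𝓞 F) (𝓞 K)) hn
  rwa [map_natCast] at h1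

theorem up {p : ℕ} [hp : Fact p.Prime] (F : IntermediateField ℚ K) (h : Leopoldt K p) : Leopoldt F p := by
  intro n ε hε hind a m hm hx
  refine h n (fun i => inc F (ε i)) (fun i => ?_) (fun c hc => ?_) a m hm (fun N => ?_)
  · have h1 := up_rad F _ (hε i)
    rwa [map_sub, map_one] at h1
  · refine hind c (inc_inj F ?_)
    rw [map_prod, map_one, ← hc]
    exact Finset.prod_congr rfl fun i _ => map_zpow _ _ _
  · filter_upwards [hx N] with k hk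
    have h1 := map_dvd (algebraMap (𝓞 F) (𝓞 K)) hk
    rw [map_pow, map_natCast, map_sub, map_one, ← inc_coe] at h1
    have h2 : (∏ i, inc F (ε i) ^ m k i : (𝓞 K)ˣ) = inc F (∏ i, ε i ^ m k i) := by
      rw [map_prod]
      exact Finset.prod_congr rfl fun i _ => (map_zpow _ _ _).symm
    rw [h2]
    exact h1

/-- the action on units -/
noncomputable def act (g : Gal(K/ℚ)) : (𝓞 K)ˣ →* (𝓞 K)ˣ :=
  Units.map (MulSemiringAction.toRingHom Gal(K/ℚ) (𝓞 K) g : 𝓞 K →* 𝓞 K)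

theorem act_coe (g : Gal(K/ℚ)) (u : (𝓞 K)ˣ) : (((act g u : (𝓞 K)ˣ) : 𝓞 K) : K) = g ((u : 𝓞 K) : K) := rfl

theorem act_dvd (g : Gal(K/ℚ)) {p N : ℕ} {u : (𝓞 K)ˣ} (h : ((p : ℕ) : 𝓞 K) ^ N ∣ ((u : 𝓞 K) - 1)) :
    ((p : ℕ) : 𝓞 K) ^ N ∣ (((act g u : (𝓞 K)ˣ) : 𝓞 K) - 1) := by
  have h1 := map_dvd (MulSemiringAction.toRingHom Gal(K/ℚ) (𝓞 K) g) h
  rw [map_pow, map_natCast, map_sub, map_one] at h1
  exact h1

/-- the unit `g u · c g u` -/
noncomputable def nrm (c g : Gal(K/ℚ)) : (𝓞 K)ˣ →* (𝓞 K)ˣ := act g * act (c * g)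

theorem nrm_coe (c g : Gal(K/ℚ)) (u : (𝓞 K)ˣ) :
    (((nrm c g u : (𝓞 K)ˣ) : 𝓞 K) : K) = g ((u : 𝓞 K) : K) * c (g ((u : 𝓞 K) : K)) := rfl

theorem nrm_dvd (c g : Gal(K/ℚ)) {p N : ℕ} {u : (𝓞 K)ˣ} (h : ((p : ℕ) : 𝓞 K) ^ N ∣ ((u : 𝓞 K) - 1)) :
    ((p : ℕ) : 𝓞 K) ^ N ∣ (((nrm c g u : (𝓞 K)ˣ) : 𝓞 K) - 1) := by
  have h1 := act_dvd g h
  have h2 := act_dvd (c * g) h
  have h3 : (((nrm c g u : (𝓞 K)ˣ) : 𝓞 K) - 1) = (((act g u : (𝓞 K)ˣ) : 𝓞 K) - 1) *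
      ((act (c * g) u : (𝓞 K)ˣ) : 𝓞 K) + (((act (c * g) u : (𝓞 K)ˣ) : 𝓞 K) - 1) := by
    have h4 : ((nrm c g u : (𝓞 K)ˣ) : 𝓞 K) = ((act g u : (𝓞 K)ˣ) : 𝓞 K) *
      ((act (c * g) u : (𝓞 K)ˣ) : 𝓞 K) := rfl
    rw [h4]
    ring
  rw [h3]
  exact dvd_add (h1.mul_right _) h2

theorem exists_decomp {F : Type} [Field F] [NumberField F] (x : (𝓞 F)ˣ) :
    ∃ (ζ : (𝓞 F)ˣ) (e : Fin (rank F) → ℤ), ζ ∈ torsion F ∧ x = ζ * ∏ j, (fundSystem F j) ^ e j := by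
  obtain ⟨ζe, h, -⟩ := NumberField.Units.exist_unique_eq_mul_prod F x
  exact ⟨ζe.1, ζe.2, ζe.1.2, h⟩

theorem down [hG : IsGalois ℚ K] {p : ℕ} [hp : Fact p.Prime] (φ : K →+* ℂ) (c : Gal(K/ℚ))
    (hc : ∀ x, φ (c x) = star (φ x)) (hF : Leopoldt (realSub φ) p) : Leopoldt K p := by
  classical
  intro n ε hε hind a m hm hx
  have hcc : ∀ x, c (c x) = x := fun x => by
    apply φ.injective
    rw [hc, hc, star_star]
  have hmem : ∀ x, c x = x → x ∈ realSub φ := by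
    intro x hx
    have h1 := hc x
    rw [hx] at h1
    exact Complex.conj_eq_iff_im.1 h1.symm
  have hN : ∀ (g : Gal(K/ℚ)) (u : (𝓞 K)ˣ), (((nrm c g u : (𝓞 K)ˣ) : 𝓞 K) : K) ∈ realSub φ := by
    intro g u
    apply hmem
    rw [nrm_coe, map_mul, hcc, mul_comm]
  choose w hw using fun g u => down_unit (realSub φ) (nrm c g u) (hN g u)
  choose ζ B hζ hB using fun (g : Gal(K/ℚ)) (i : Fin n) => exists_decomp (w g (ε i))
  have hprod : ∀ (g : Gal(K/ℚ)) (e : Fin n → ℤ), inc (realSub φ) (∏ i, (w g (ε i)) ^ e i) =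
      nrm c g (∏ i, ε i ^ e i) := by
    intro g e
    rw [map_prod, map_prod]
    refine Finset.prod_congr rfl fun i _ => ?_
    rw [map_zpow, map_zpow, hw]
  have hcol : ∀ (g : Gal(K/ℚ)) (j : Fin (rank (realSub φ))), ∑ i, a i * (B g i j : PadicInt p) = 0 := by
    intro g
    refine field_level p hF (fun i => w g (ε i)) (ζ g) (hζ g) (B g) (hB g) a m hm (fun N => ?_)
    filter_upwards [hx N] with k hk
    refine down_dvd (realSub φ) hp.out.ne_zero N _ ?_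
    rw [map_sub, map_one, ← inc_coe, hprod]
    exact nrm_dvd c g hk
  let e := Fintype.equivFin (Gal(K/ℚ) × Fin (rank (realSub φ)))
  refine padic_indep_of_int_indep p (fun i j => B (e.symm j).1 i (e.symm j).2) ?_ a (fun j => hcol _ _)
  intro d hd
  have hd' : ∀ (g : Gal(K/ℚ)) (j : Fin (rank (realSub φ))), ∑ i, d i * B g i j = 0 := by
    intro g j
    have h1 := hd (e (g, j))
    simpa using h1
  set u : (𝓞 K)ˣ := ∏ i, ε i ^ d i with hu
  have hnorm : ∀ g : Gal(K/ℚ), ‖φ (g ((u : 𝓞 K) : K))‖ = 1 := by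
    intro g
    obtain ⟨T, hT0, -, hT⟩ := exists_T (F := realSub φ) p
    have h1 : (∏ i, (w g (ε i)) ^ d i) ^ T = 1 := by
      have h2 : ∏ i, (w g (ε i)) ^ d i = (∏ i, ζ g i ^ d i) *
          ∏ j, (fundSystem (realSub φ) j) ^ (∑ i, d i * B g i j) := by
        rw [← prod_zpow_sum, ← Finset.prod_mul_distrib]
        refine Finset.prod_congr rfl fun i _ => ?_
        rw [hB g i, mul_zpow]
      have h3 : ∏ j, (fundSystem (realSub φ) j) ^ (∑ i, d i * B g i j) = 1 :=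
        Finset.prod_eq_one fun j _ => by rw [hd' g j, zpow_zero]
      rw [h2, h3, mul_one]
      exact hT _ (Subgroup.prod_mem _ fun i _ => Subgroup.zpow_mem _ (hζ g i) _)
    have h4 : (nrm c g u) ^ T = 1 := by
      rw [hu, ← hprod, ← map_pow, h1, map_one]
    have h5 : (((nrm c g u : (𝓞 K)ˣ) : 𝓞 K) : K) ^ T = 1 := by
      have h6 := congrArg (fun z : (𝓞 K)ˣ => ((z : 𝓞 K) : K)) h4
      simpa using h6
    have h7 : ‖φ (((nrm c g u : (𝓞 K)ˣ) : 𝓞 K) : K)‖ ^ T = 1 := by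
      rw [← norm_pow, ← map_pow, h5, map_one, norm_one]
    have h8 : ‖φ (((nrm c g u : (𝓞 K)ˣ) : 𝓞 K) : K)‖ = 1 :=
      (pow_eq_one_iff_of_nonneg (norm_nonneg _) hT0).1 h7
    rw [nrm_coe, map_mul, hc, norm_mul, norm_star, ← sq] at h8
    exact (pow_eq_one_iff_of_nonneg (norm_nonneg _) two_ne_zero).1 h8
  obtain ⟨T, hT0, hT⟩ := NumberField.Embeddings.pow_eq_one_of_norm_eq_one K ℂ
    (x := ((u : 𝓞 K) : K)) (u : 𝓞 K).2 (by
      intro ψ
      obtain ⟨ν, rfl⟩ := ComplexEmbedding.exists_comp_symm_eq_of_comp_eq (k := ℚ) φ ψ (by ext; simp)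
      exact hnorm ν.symm)
  have hT' : u ^ T = 1 := Units.ext (RingOfIntegers.ext (by simpa using hT))
  have h9 := hind (fun i => (T : ℤ) * d i) (by
    have h10 : ∏ i, ε i ^ ((T : ℤ) * d i) = u ^ T := by
      rw [hu, ← Finset.prod_pow]
      refine Finset.prod_congr rfl fun i _ => ?_
      rw [mul_comm, zpow_mul, zpow_natCast]
    rw [h10, hT'])
  funext i
  have h11 : (T : ℤ) * d i = 0 := congrFun h9 i
  exact (mul_eq_zero.1 h11).resolve_left (by exact_mod_cast hT0.ne')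

end Pool.Agent.Helper832_MU.LeoR
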