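import Pool.Agent.Helper832_MU.Cyc

/-!
# Primes in the layers of the cyclotomic `ℤ_p`-extension: bounded numbers of orbits
-/

set_option autoImplicit false

namespace Pool.Agent.Helper832_MU

open NumberField Subgroup Module IntermediateField Pool.Agent.W569.FM Pool.Agent.Q60.MU
open Pool.Agent.R417.FK Pool.Agent.Helper832_EG Pool.Agent.W571.FM
open scoped Pointwise commutatorElement

theorem ord_bd {p : ℕ} [hp : Fact p.Prime] (h2 : p ≠ 2) {q j n : ℕ} (hq : 2 ≤ q) (hpq : ¬ p ∣ q) (hj : j ≠ 0)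
    (h : p ^ n ∣ q ^ j - 1) : p ^ n ≤ p ^ (padicValNat p (q ^ (p - 1) - 1)) * j := by
  have hp1 : Odd p := hp.out.odd_of_ne_two h2
  have hp2 : 2 ≤ p := hp.out.two_le
  have hpm : p - 1 ≠ 0 := by omega
  have hb1 : 1 < q ^ (p - 1) := Nat.one_lt_pow hpm (by omega)
  have hfer : p ∣ q ^ (p - 1) - 1 := by
    have h3 : q ^ (p - 1) ≡ 1 [MOD p] := by
      have h4 := Nat.ModEq.pow_totient ((Nat.Prime.coprime_iff_not_dvd hp.out).2 hpq).symm
      rwa [Nat.totient_prime hp.out] at h4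
    exact (Nat.modEq_iff_dvd' hb1.le).1 h3.symm
  have hnd : ¬ p ∣ q ^ (p - 1) := fun h3 => hpq (hp.out.dvd_of_dvd_pow h3)
  have hlte := padicValNat.pow_sub_pow (p := p) (x := q ^ (p - 1)) (y := 1) hp1 hb1 hfer hnd (n := j) hj
  rw [one_pow] at hlte
  have hne : (q ^ (p - 1)) ^ j - 1 ≠ 0 := by
    have := Nat.one_lt_pow hj hb1
    omega
  have hdv : p ^ n ∣ (q ^ (p - 1)) ^ j - 1 := by
    refine h.trans ?_
    have h3 : (q ^ (p - 1)) ^ j = (q ^ j) ^ (p - 1) := by rw [← pow_mul, ← pow_mul, mul_comm]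
    rw [h3]
    have h4 := Nat.sub_dvd_pow_sub_pow (q ^ j) 1 (p - 1)
    rwa [one_pow] at h4
  have hn : n ≤ padicValNat p ((q ^ (p - 1)) ^ j - 1) := (padicValNat_dvd_iff_le hne).1 hdv
  rw [hlte] at hn
  calc p ^ n ≤ p ^ (padicValNat p (q ^ (p - 1) - 1) + padicValNat p j) :=
        Nat.pow_le_pow_right hp.out.pos hn
    _ = p ^ (padicValNat p (q ^ (p - 1) - 1)) * p ^ (padicValNat p j) := pow_add _ _ _
    _ ≤ _ := Nat.mul_le_mul_left _ (Nat.le_of_dvd (Nat.pos_of_ne_zero hj) pow_padicValNat_dvd)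

theorem fix_of_aut {N : ℕ} [NeZero N] {ζ : Qb} (hζ : IsPrimitiveRoot ζ N) (σ : Gal(Qb/ℚ))
    (hσ : hζ.autToPow ℚ σ = 1) : σ ζ = ζ := by
  have h3 := hζ.autToPow_spec ℚ σ
  rw [hσ] at h3
  rw [← h3]
  by_cases h4 : N = 1
  · have h5 : ζ = 1 := by
      have h6 := hζ.pow_eq_one
      rw [h4, pow_one] at h6
      exact h6
    rw [h5, one_pow]
  · have h5 : Fact (1 < N) := ⟨by
      have := Nat.pos_of_ne_zero (NeZero.ne N)
      omega⟩
    rw [Units.val_one, ZMod.val_one, pow_one]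

theorem smul_eq_of_le {P : Ideal (𝓞 Qb)} (hP : P.IsMaximal) {σ : Gal(Qb/ℚ)}
    (h : ∀ x ∈ P, σ • x ∈ P) : σ • P = P := by
  refine (smul_max hP σ).eq_of_le hP.ne_top ?_
  intro x hx
  rw [mem_smul_iff] at hx
  have h1 := h _ hx
  rwa [smul_inv_smul] at h1

theorem orb_ne {p : ℕ} [hp : Fact p.Prime] (h2 : p ≠ 2) {P : Ideal (𝓞 Qb)} (hP : P.IsMaximal)
    (hpP : (p : 𝓞 Qb) ∉ P) : ∃ t : ℕ, ∀ L : IntermediateField ℚ Qb, L ≤ cycF p → FiniteDimensional ℚ L →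
      ∃ T : Finset (Ideal (𝓞 Qb)), T.card ≤ t ∧ ∀ g : Gal(Qb/ℚ), ∃ u ∈ T, ∃ d ∈ L.fixingSubgroup,
        g • P = d • u := by
  classical
  obtain ⟨σ, hσ, hσζ⟩ := fr P hP hpP
  have hσP : σ • P = P := by
    refine smul_eq_of_le hP fun x hx => ?_
    have h3 : σ • x = (σ • x - x ^ nm P) + x ^ nm P := by ring
    rw [h3]
    refine P.add_mem (hσ x) (P.pow_mem_of_mem hx _ ?_)
    have := nm_two hP
    omega
  refine ⟨p ^ (padicValNat p ((nm P) ^ (p - 1) - 1)), fun L hL hfd => ?_⟩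
  obtain ⟨n, hn⟩ := exists_level hL hfd
  obtain ⟨ζ, hζ⟩ := exists_root p n
  have hnz : NeZero (p ^ n) := ⟨pow_ne_zero _ hp.out.ne_zero⟩
  let χ : Gal(Qb/ℚ) →* (ZMod (p ^ n))ˣ := hζ.autToPow ℚ
  have hχ : ∀ g, χ g = 1 → g ∈ L.fixingSubgroup := fun g hg => hn ζ hζ g (fix_of_aut hζ g hg)
  -- the order of the Frobenius
  have hval : ((χ σ : (ZMod (p ^ n))ˣ) : ZMod (p ^ n)) = ((nm P : ℕ) : ZMod (p ^ n)) := by
    have h3 : ζ ^ ((χ σ : (ZMod (p ^ n))ˣ) : ZMod (p ^ n)).val = σ ζ := hζ.autToPow_spec ℚ σ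
    rw [hσζ n ζ hζ.pow_eq_one] at h3
    have h4 := prim_pow_modEq (NeZero.ne _) hζ h3
    have h5 := (ZMod.natCast_eq_natCast_iff _ _ _).2 h4
    rwa [ZMod.natCast_zmod_val] at h5
  set j := orderOf (χ σ) with hj
  have hj0 : j ≠ 0 := (orderOf_pos (χ σ)).ne'
  have hdv : p ^ n ∣ (nm P) ^ j - 1 := by
    have h3 : ((χ σ : (ZMod (p ^ n))ˣ) : ZMod (p ^ n)) ^ j = 1 := by
      rw [← Units.val_pow_eq_pow_val, hj, pow_orderOf_eq_one, Units.val_one]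
    rw [hval] at h3
    have h4 : (((nm P) ^ j : ℕ) : ZMod (p ^ n)) = ((1 : ℕ) : ZMod (p ^ n)) := by
      rw [Nat.cast_pow, h3, Nat.cast_one]
    have h5 := (ZMod.natCast_eq_natCast_iff _ _ _).1 h4
    refine (Nat.modEq_iff_dvd' (Nat.one_le_iff_ne_zero.2 (pow_ne_zero _ ?_))).1 h5.symm
    have := nm_two hP
    omega
  have hbd := ord_bd h2 (nm_two hP) (nm_cop hp.out hP hpP) hj0 hdv
  -- the quotient
  let Z : Subgroup (ZMod (p ^ n))ˣ := zpowers (χ σ)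
  have hfin : Finite ((ZMod (p ^ n))ˣ ⧸ Z) := inferInstance
  let _ : Fintype ((ZMod (p ^ n))ˣ ⧸ Z) := Fintype.ofFinite _
  have hcard : Nat.card ((ZMod (p ^ n))ˣ ⧸ Z) ≤ p ^ (padicValNat p ((nm P) ^ (p - 1) - 1)) := by
    have h3 : Nat.card (ZMod (p ^ n))ˣ = Nat.card ((ZMod (p ^ n))ˣ ⧸ Z) * Nat.card Z :=
      Subgroup.card_eq_card_quotient_mul_card_subgroup Z
    have h4 : Nat.card Z = j := Nat.card_zpowers _
    have h5 : Nat.card (ZMod (p ^ n))ˣ ≤ p ^ n := by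
      rw [Nat.card_eq_fintype_card, ZMod.card_units_eq_totient]
      exact Nat.totient_le _
    rw [h3, h4] at h5
    exact Nat.le_of_mul_le_mul_right (h5.trans hbd) (Nat.pos_of_ne_zero hj0)
  let f : Gal(Qb/ℚ) → (ZMod (p ^ n))ˣ ⧸ Z := fun g => (χ g : (ZMod (p ^ n))ˣ ⧸ Z)
  let r : (ZMod (p ^ n))ˣ ⧸ Z → Gal(Qb/ℚ) := fun x => if h : ∃ g, f g = x then h.choose else 1
  have hr : ∀ g, f (r (f g)) = f g := by
    intro g
    have h3 : ∃ g', f g' = f g := ⟨g, rfl⟩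
    show f (if h : ∃ g', f g' = f g then h.choose else 1) = f g
    rw [dif_pos h3]
    exact h3.choose_spec
  refine ⟨Finset.univ.image fun x => r x • P, ?_, fun g => ?_⟩
  · refine Finset.card_image_le.trans ?_
    rw [Finset.card_univ, ← Nat.card_eq_fintype_card]
    exact hcard
  · refine ⟨r (f g) • P, Finset.mem_image.2 ⟨_, Finset.mem_univ _, rfl⟩, ?_⟩
    have h3 : (χ (r (f g)))⁻¹ * χ g ∈ Z := QuotientGroup.eq.1 (hr g)
    obtain ⟨k, hk⟩ := mem_zpowers_iff.1 h3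
    refine ⟨g * (r (f g) * σ ^ k)⁻¹, hχ _ ?_, ?_⟩
    · rw [map_mul, map_inv, map_mul, map_zpow, hk]
      group
    · have h4 : (σ ^ k) • P = P := by
        have h5 : σ ∈ MulAction.stabilizer Gal(Qb/ℚ) P := hσP
        exact zpow_mem h5 k
      have h6 : g • P = (g * (r (f g) * σ ^ k)⁻¹ * r (f g)) • (σ ^ k) • P := by
        rw [smul_smul]
        congr 1
        group
      rw [h6, h4, mul_smul]

end Pool.Agent.Helper832_MU
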