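import Pool.Agent.Helper832_MU.Orb

/-!
# The prime `p` in the layers of the cyclotomic `ℤ_p`-extension
-/

set_option autoImplicit false

namespace Pool.Agent.Helper832_MU

open NumberField Subgroup Module IntermediateField Pool.Agent.W569.FM Pool.Agent.Q60.MU
open Pool.Agent.R417.FK Pool.Agent.Helper832_EG Pool.Agent.W571.FM
open scoped Pointwise commutatorElement

theorem int_mem_iff {p : ℕ} [hp : Fact p.Prime] {P : Ideal (𝓞 Qb)} (hP : P.IsMaximal)
    (hpP : (p : 𝓞 Qb) ∈ P) (m : ℤ) : (m : 𝓞 Qb) ∈ P ↔ (p : ℤ) ∣ m := by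
  constructor
  · intro h
    by_contra hd
    have h1 : IsCoprime (p : ℤ) m := (Nat.prime_iff_prime_int.1 hp.out).irreducible.coprime_iff_not_dvd.2 hd
    obtain ⟨a, b, hab⟩ := h1
    apply hP.ne_top
    rw [Ideal.eq_top_iff_one]
    have h2 : (1 : 𝓞 Qb) = (a : 𝓞 Qb) * (p : 𝓞 Qb) + (b : 𝓞 Qb) * (m : 𝓞 Qb) := by
      have h3 := congrArg (fun z : ℤ => (z : 𝓞 Qb)) hab
      push_cast at h3
      exact h3.symm
    rw [h2]
    exact P.add_mem (P.mul_mem_left _ hpP) (P.mul_mem_left _ h)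
  · rintro ⟨d, rfl⟩
    push_cast
    exact P.mul_mem_right _ hpP

theorem sub_one_mem {p : ℕ} [hp : Fact p.Prime] {P : Ideal (𝓞 Qb)} (hP : P.IsMaximal)
    (hpP : (p : 𝓞 Qb) ∈ P) {z : 𝓞 Qb} {n : ℕ} (hz : z ^ p ^ n = 1) : z - 1 ∈ P := by
  have hPp := hP.isPrime
  let _ : Field (𝓞 Qb ⧸ P) := Ideal.Quotient.field P
  have hch : CharP (𝓞 Qb ⧸ P) p := by
    refine (CharP.charP_iff_prime_eq_zero hp.out).2 ?_
    have h1 := Ideal.Quotient.eq_zero_iff_mem.2 hpP
    rwa [map_natCast] at h1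
  have hz' : (Ideal.Quotient.mk P z - 1) ^ p ^ n = 0 := by
    rw [sub_pow_char_pow, ← map_pow, hz, map_one, one_pow, sub_self]
  have h1 := pow_eq_zero_iff (pow_ne_zero n hp.out.ne_zero) |>.1 hz'
  rw [← map_one (Ideal.Quotient.mk P), ← map_sub] at h1
  exact Ideal.Quotient.eq_zero_iff_mem.1 h1

theorem orb_p {p : ℕ} [hp : Fact p.Prime] {P : Ideal (𝓞 Qb)} (hP : P.IsMaximal)
    (hpP : (p : 𝓞 Qb) ∈ P) (L : IntermediateField ℚ Qb) (hL : L ≤ cycF p) (hfd : FiniteDimensional ℚ L)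
    (g : Gal(Qb/ℚ)) : ∃ d ∈ L.fixingSubgroup, g • P = d • P := by
  classical
  obtain ⟨n, hn⟩ := exists_level hL hfd
  obtain ⟨ζ, hζ⟩ := exists_root p n
  have hnz : NeZero (p ^ n) := ⟨pow_ne_zero _ hp.out.ne_zero⟩
  have hζi : IsIntegral ℤ ζ := hζ.isIntegral (Nat.pos_of_ne_zero (NeZero.ne _))
  let K : IntermediateField ℚ Qb := ℚ⟮ζ⟯
  have hcyc : IsCyclotomicExtension {p ^ n} ℚ K := hζ.intermediateField_adjoin_isCyclotomicExtension ℚ
  have hmemK : ζ ∈ K := mem_adjoin_simple_self ℚ ζ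
  have hζK : IsPrimitiveRoot (⟨ζ, hmemK⟩ : K) (p ^ n) :=
    IsPrimitiveRoot.coe_submonoidClass_iff.1 hζ
  have hcl := IsCyclotomicExtension.Rat.isIntegralClosure_adjoin_singleton_of_prime_pow hζK
  have hKfd : FiniteDimensional ℚ K := adjoin.finiteDimensional (hζi.tower_top)
  have hcl' : IsClosed (K.fixingSubgroup : Set Gal(Qb/ℚ)) := K.fixingSubgroup_isClosed
  have hgP := smul_max hP g
  have hPp := hP.isPrime
  have hgPp := hgP.isPrime
  have hpg : (p : 𝓞 Qb) ∈ g • P := (natCast_mem_smul g p).2 hpP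
  obtain ⟨d, hd, hd2⟩ := trans_fixed K.fixingSubgroup hcl' P (g • P) (by
    intro x hx
    -- `x` is a polynomial in `ζ`
    have hxK : (x : Qb) ∈ K := by
      have h1 : (x : Qb) ∈ fixedField K.fixingSubgroup := by
        rw [mem_fixedField_iff]
        intro τ hτ
        exact congrArg (fun z : 𝓞 Qb => (z : Qb)) (hx τ hτ)
      rwa [InfiniteGalois.fixedField_fixingSubgroup] at h1
    have hxi : IsIntegral ℤ (⟨(x : Qb), hxK⟩ : K) := by
      have h1 : IsIntegral ℤ (x : Qb) := x.2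
      exact (isIntegral_algHom_iff (K.val.restrictScalars ℤ) K.val.injective).1 h1
    obtain ⟨y, hy⟩ := hcl.isIntegral_iff.1 hxi
    have hy2 : (y : K) ∈ Algebra.adjoin ℤ {(⟨ζ, hmemK⟩ : K)} := y.2
    rw [Algebra.adjoin_singleton_eq_range_aeval] at hy2
    obtain ⟨f, hf⟩ := hy2
    let z : 𝓞 Qb := ⟨ζ, hζi⟩
    have hz : z ^ p ^ n = 1 := RingOfIntegers.ext (by
      show algebraMap (𝓞 Qb) Qb (z ^ p ^ n) = algebraMap (𝓞 Qb) Qb 1
      rw [map_pow, map_one]
      exact hζ.pow_eq_one)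
    have hfx : Polynomial.aeval z f = x := by
      refine RingOfIntegers.ext ?_
      show algebraMap (𝓞 Qb) Qb (Polynomial.aeval z f) = (x : Qb)
      rw [← Polynomial.aeval_algebraMap_apply]
      have h1 := congrArg (algebraMap K Qb) hf
      have h2 : algebraMap K Qb (Polynomial.aeval (⟨ζ, hmemK⟩ : K) f) = Polynomial.aeval ζ f :=
        (Polynomial.aeval_algebraMap_apply Qb (⟨ζ, hmemK⟩ : K) f).symm
      have h3 : algebraMap K Qb (y : K) = (x : Qb) := congrArg (algebraMap K Qb) hy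
      have h4 : Polynomial.aeval ζ f = (x : Qb) := by
        rw [← h2, ← h3]
        exact h1
      exact h4
    have key : ∀ Q : Ideal (𝓞 Qb), Q.IsMaximal → (p : 𝓞 Qb) ∈ Q → (x ∈ Q ↔ (p : ℤ) ∣ f.eval 1) := by
      intro Q hQ hpQ
      have h1 : z - 1 ∈ Q := sub_one_mem hQ hpQ hz
      have h2 : x - ((f.eval 1 : ℤ) : 𝓞 Qb) ∈ Q := by
        have h3 := Polynomial.sub_dvd_eval_sub z 1 (f.map (Int.castRingHom (𝓞 Qb)))
        have h4 : (f.map (Int.castRingHom (𝓞 Qb))).eval z = x := by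
          rw [← hfx, Polynomial.aeval_def, Polynomial.eval₂_eq_eval_map]
          rfl
        have h5 : (f.map (Int.castRingHom (𝓞 Qb))).eval 1 = ((f.eval 1 : ℤ) : 𝓞 Qb) := by
          have h6 := Polynomial.eval_intCast_map (Int.castRingHom (𝓞 Qb)) f 1
          rw [Int.cast_one] at h6
          exact h6
        rw [h4, h5] at h3
        exact Q.mem_of_dvd h3 h1
      rw [← int_mem_iff hQ hpQ]
      exact ⟨fun h => by
        have h3 := Q.sub_mem h h2
        rwa [sub_sub_cancel] at h3, fun h => by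
        have h3 := Q.add_mem h2 h
        rwa [sub_add_cancel] at h3⟩
    rw [key P hP hpP, key _ hgP hpg])
  refine ⟨d, ?_, hd2⟩
  exact hn ζ hζ d ((IntermediateField.mem_fixingSubgroup_iff _ _).1 hd ζ hmemK)

end Pool.Agent.Helper832_MU
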