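import Pool.Agent.Helper832_MU.Tame

/-!
# Abelian extensions of imaginary quadratic fields
-/

set_option autoImplicit false

namespace Pool.Agent.Helper832_MU

open NumberField Subgroup Module IntermediateField
open Pool.Agent.Q60.MU (Qb isAlg_Qb isGalois_Qb IsSimple stab mem_stab fix_fixed finite_fixed index_ne_zero')
open scoped Pointwise commutatorElement

/-- the subfield on which two automorphisms agree -/
def eqF (σ τ : Gal(Qb/ℚ)) : IntermediateField ℚ Qb where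
  carrier := {x | σ x = τ x}
  mul_mem' := fun {a b} ha hb => by
    have ha' : σ a = τ a := ha
    have hb' : σ b = τ b := hb
    show σ (a * b) = τ (a * b)
    rw [map_mul, map_mul, ha', hb']
  add_mem' := fun {a b} ha hb => by
    have ha' : σ a = τ a := ha
    have hb' : σ b = τ b := hb
    show σ (a + b) = τ (a + b)
    rw [map_add, map_add, ha', hb']
  algebraMap_mem' := fun r => by
    show σ (algebraMap ℚ Qb r) = τ (algebraMap ℚ Qb r)
    rw [σ.commutes, τ.commutes]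
  inv_mem' := fun a ha => by
    have ha' : σ a = τ a := ha
    show σ a⁻¹ = τ a⁻¹
    rw [map_inv₀, map_inv₀, ha']

theorem mem_eqF {σ τ : Gal(Qb/ℚ)} {x : Qb} : x ∈ eqF σ τ ↔ σ x = τ x := Iff.rfl

theorem map_sup_le {K L : IntermediateField ℚ Qb} (σ : Gal(Qb/ℚ)) (N : IntermediateField ℚ Qb)
    (hK : ∀ x ∈ K, σ x ∈ N) (hL : ∀ x ∈ L, σ x ∈ N) : ∀ x ∈ K ⊔ L, σ x ∈ N := by
  have h1 : K ⊔ L ≤ N.comap (σ : Qb →ₐ[ℚ] Qb) := sup_le (fun x hx => hK x hx) (fun x hx => hL x hx)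
  exact fun x hx => h1 hx

theorem mem_fixedField_zpowers {c : Gal(Qb/ℚ)} {x : Qb} : x ∈ fixedField (zpowers c) ↔ c x = x := by
  rw [mem_fixedField_iff]
  constructor
  · intro h
    exact h c (mem_zpowers c)
  · intro h g hg
    have h1 : zpowers c ≤ MulAction.stabilizer Gal(Qb/ℚ) x := by
      rw [zpowers_le]
      exact h
    exact h1 hg

variable {p : ℕ} [hp : Fact p.Prime] {I : Ideal (𝓞 Qb) → Subgroup Gal(Qb/ℚ)}

theorem quad_detect (h2 : p ≠ 2)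
    (hIc : ∀ (g : Gal(Qb/ℚ)) (P : Ideal (𝓞 Qb)), ∀ x ∈ I P, g * x * g⁻¹ ∈ I (g • P))
    (hIle : ∀ P, I P ≤ locG p P) (φ : Qb →+* ℂ) (k : IntermediateField ℚ Qb)
    (hk2 : finrank ℚ k = 2) (hki : ¬ k ≤ realPart φ) (K : IntermediateField ℚ Qb) (hkK : k ≤ K)
    (hK : FiniteDimensional ℚ K) (hG : ∀ σ ∈ k.fixingSubgroup, ∀ x ∈ K, σ x ∈ K)
    (hA : ∀ σ ∈ k.fixingSubgroup, ∀ τ ∈ k.fixingSubgroup, ∀ x ∈ K, σ (τ x) = τ (σ x))
    (h1 : ∀ F : IntermediateField ℚ Qb, FiniteDimensional ℚ F → (∀ σ : Gal(Qb/ℚ), ∀ x ∈ F, σ x ∈ F) →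
      (∀ σ τ : Gal(Qb/ℚ), ∀ x ∈ F, σ (τ x) = τ (σ x)) → MuI p I F)
    (h3 : ∀ E : IntermediateField ℚ Qb, FiniteDimensional ℚ E → E ≤ realPart φ →
      (∀ σ : Gal(Qb/ℚ), ∀ x ∈ E ⊔ k, σ x ∈ E ⊔ k) →
      (∀ σ ∈ k.fixingSubgroup, ∀ τ ∈ k.fixingSubgroup, ∀ x ∈ E ⊔ k, σ (τ x) = τ (σ x)) → MuI p I E) :
    MuI p I K := by
  obtain ⟨c, hc⟩ := exists_conj φ
  have hcc := conj_sq hc
  have hccx : ∀ x, c (c x) = x := fun x => by
    rw [← AlgEquiv.mul_apply, hcc, AlgEquiv.one_apply]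
  have hcinv : c⁻¹ = c := inv_eq_of_mul_eq_one_left hcc
  have hidx : k.fixingSubgroup.index = 2 := by
    rw [← finrank_eq_fixingSubgroup_index, hk2]
  have hkn : k.fixingSubgroup.Normal := normal_of_index_eq_two hidx
  have hck : c ∉ k.fixingSubgroup := by
    intro h
    apply hki
    intro x hx
    exact (conj_fix hc).1 ((IntermediateField.mem_fixingSubgroup_iff _ _).1 h x hx)
  -- every automorphism is in the subgroup or `c` times an element of the subgroup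
  have hcase : ∀ σ : Gal(Qb/ℚ), σ ∈ k.fixingSubgroup ∨ ∃ τ ∈ k.fixingSubgroup, σ = τ * c := by
    intro σ
    by_cases h : σ ∈ k.fixingSubgroup
    · exact Or.inl h
    · right
      refine ⟨σ * c, (mul_mem_iff_of_index_two hidx).2 (iff_of_false h hck), ?_⟩
      rw [mul_assoc, hcc, mul_one]
  have hconj : ∀ τ ∈ k.fixingSubgroup, c * τ * c ∈ k.fixingSubgroup := by
    intro τ hτ
    have h4 := hkn.conj_mem τ hτ c
    rwa [hcinv] at h4
  have hcx : ∀ (τ : Gal(Qb/ℚ)) (x : Qb), τ (c x) = c ((c * τ * c) x) := by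
    intro τ x
    rw [AlgEquiv.mul_apply, AlgEquiv.mul_apply, hccx]
  -- the Galois closure
  let K' : IntermediateField ℚ Qb := K.map (c : Qb →ₐ[ℚ] Qb)
  have hK' : ∀ y, y ∈ K' ↔ ∃ x ∈ K, c x = y := fun y => Iff.rfl
  let N : IntermediateField ℚ Qb := K ⊔ K'
  have hKN : K ≤ N := le_sup_left
  have hKN' : K' ≤ N := le_sup_right
  have hkN : k ≤ N := hkK.trans hKN
  have hK'fd : FiniteDimensional ℚ K' := by
    have e : K ≃ₐ[ℚ] K' := K.intermediateFieldMap c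
    exact LinearEquiv.finiteDimensional e.toLinearEquiv
  have hN : FiniteDimensional ℚ N := inferInstance
  have hGN1 : ∀ σ ∈ k.fixingSubgroup, ∀ x ∈ N, σ x ∈ N := by
    intro σ hσ
    refine map_sup_le σ N (fun x hx => hKN (hG σ hσ x hx)) ?_
    rintro _ ⟨x, hx, rfl⟩
    show σ (c x) ∈ N
    rw [hcx]
    exact hKN' ⟨_, hG _ (hconj σ hσ) x hx, rfl⟩
  have hGNc : ∀ x ∈ N, c x ∈ N := by
    refine map_sup_le c N (fun x hx => hKN' ⟨x, hx, rfl⟩) ?_
    rintro _ ⟨x, hx, rfl⟩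
    show c (c x) ∈ N
    rw [hccx]
    exact hKN hx
  have hGN : ∀ σ : Gal(Qb/ℚ), ∀ x ∈ N, σ x ∈ N := by
    intro σ x hx
    rcases hcase σ with h | ⟨τ, hτ, rfl⟩
    · exact hGN1 σ h x hx
    · rw [AlgEquiv.mul_apply]
      exact hGN1 τ hτ _ (hGNc x hx)
  have hAN : ∀ σ ∈ k.fixingSubgroup, ∀ τ ∈ k.fixingSubgroup, ∀ x ∈ N, σ (τ x) = τ (σ x) := by
    intro σ hσ τ hτ
    have h4 : N ≤ eqF (σ * τ) (τ * σ) := by
      refine sup_le (fun x hx => hA σ hσ τ hτ x hx) ?_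
      rintro _ ⟨x, hx, rfl⟩
      show σ (τ (c x)) = τ (σ (c x))
      rw [hcx τ, hcx σ, hcx σ, hcx τ]
      exact congrArg c (hA _ (hconj σ hσ) _ (hconj τ hτ) x hx)
    exact fun x hx => h4 hx
  refine MuI.mono hKN hN ?_
  refine inv_detect h2 hIc hIle ⊥ N bot_le hN (fun σ _ => hGN σ) c ?_ ?_ ?_ ?_
  · rw [fixingSubgroup_bot]
    trivial
  · rw [hcc]
    exact one_mem _
  · -- the real subfield
    have hEr : ∀ x, x ∈ fixedField (zpowers c) ↔ c x = x := fun x => mem_fixedField_zpowers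
    set E : IntermediateField ℚ Qb := N ⊓ fixedField (zpowers c) with hE
    have hEN : E ≤ N := inf_le_left
    have hmemE : ∀ x, x ∈ E ↔ x ∈ N ∧ c x = x := fun x =>
      ⟨fun h => ⟨h.1, (hEr x).1 h.2⟩, fun h => ⟨h.1, (hEr x).2 h.2⟩⟩
    have hEk : E ⊔ k = N := by
      apply le_antisymm (sup_le hEN hkN)
      intro x hx
      obtain ⟨y, hy, hyr⟩ := Set.not_subset.1 hki
      have hcy : c y ∈ k := by
        have hkg : IsGalois ℚ k := (InfiniteGalois.normal_iff_isGalois k).1 hkn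
        have h5 := (IntermediateField.mem_fixingSubgroup_iff k (1 : Gal(Qb/ℚ)))
        have h6 : c y ∈ fixedField k.fixingSubgroup := by
          rw [mem_fixedField_iff]
          intro τ hτ
          rw [hcx, (IntermediateField.mem_fixingSubgroup_iff _ _).1 (hconj τ hτ) y hy]
        rwa [InfiniteGalois.fixedField_fixingSubgroup] at h6
      set d : Qb := y - c y with hd
      have hd0 : d ≠ 0 := by
        intro h
        apply hyr
        exact (conj_fix hc).1 (sub_eq_zero.1 h).symm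
      have hdk : d ∈ k := sub_mem hy hcy
      have hcd : c d = -d := by
        rw [hd, map_sub, hccx]
        ring
      have hu : (x + c x) ∈ E := (hmemE _).2 ⟨add_mem hx (hGNc x hx), by rw [map_add, hccx, add_comm]⟩
      have hv : (x - c x) / d ∈ E := (hmemE _).2 ⟨div_mem (sub_mem hx (hGNc x hx)) (hkN hdk), by
        rw [map_div₀, map_sub, hccx, hcd]
        rw [div_neg, ← neg_div]
        ring⟩
      have hx2 : x = ((x + c x) + (x - c x) / d * d) / 2 := by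
        rw [div_mul_cancel₀ _ hd0]
        ring
      rw [hx2]
      have htwo : (2 : Qb) ∈ E ⊔ k := by
        have := _root_.natCast_mem (E ⊔ k) 2
        exact_mod_cast this
      exact div_mem (add_mem ((le_sup_left : E ≤ E ⊔ k) hu) (mul_mem ((le_sup_left : E ≤ E ⊔ k) hv)
        ((le_sup_right : k ≤ E ⊔ k) hdk))) htwo
    refine h3 E (le_fd hEN hN) (fun x hx => (conj_fix hc).1 ((hmemE x).1 hx).2) ?_ ?_
    · rw [hEk]
      exact hGN
    · rw [hEk]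
      exact hAN
  · -- the abelian subfield
    set F : IntermediateField ℚ Qb := N ⊓ fixedField
      (closure {g | ∃ σ ∈ (⊥ : IntermediateField ℚ Qb).fixingSubgroup, g = σ * c * σ⁻¹ * c⁻¹}) with hF
    have hFN : F ≤ N := inf_le_left
    have hcomm : ∀ (σ : Gal(Qb/ℚ)) (x : Qb), x ∈ F → (σ * c * σ⁻¹ * c⁻¹) x = x := by
      intro σ x hx
      have h5 := (mem_fixedField_iff _ _).1 hx.2
      exact h5 _ (subset_closure ⟨σ, by rw [fixingSubgroup_bot]; trivial, rfl⟩)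
    have hgal : ∀ σ : Gal(Qb/ℚ), ∀ x ∈ F, σ x ∈ F := by
      intro σ x hx
      refine ⟨hGN σ x (hFN hx), ?_⟩
      show σ x ∈ fixedField _
      rw [mem_fixedField_iff]
      intro g hg
      have hst : Subgroup.closure {g | ∃ σ ∈ (⊥ : IntermediateField ℚ Qb).fixingSubgroup, g = σ * c * σ⁻¹ * c⁻¹} ≤
          MulAction.stabilizer Gal(Qb/ℚ) (σ x) := by
        rw [closure_le]
        rintro _ ⟨τ, -, rfl⟩
        show (τ * c * τ⁻¹ * c⁻¹) (σ x) = σ x
        -- `[τ, c] = σ (σ⁻¹ [τ, c] σ) σ⁻¹` and `σ⁻¹ [τ, c] σ = [σ⁻¹ τ, c] [σ⁻¹, c]⁻¹`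
        have h6 : (σ⁻¹ * c * σ⁻¹⁻¹ * c⁻¹)⁻¹ x = x := by
          have h7 := hcomm σ⁻¹ x hx
          have h8 : (σ⁻¹ * c * σ⁻¹⁻¹ * c⁻¹)⁻¹ ((σ⁻¹ * c * σ⁻¹⁻¹ * c⁻¹) x) = x := by
            rw [← AlgEquiv.mul_apply, inv_mul_cancel, AlgEquiv.one_apply]
          rwa [h7] at h8
        have h9 := hcomm (σ⁻¹ * τ) x hx
        have h10 : (τ * c * τ⁻¹ * c⁻¹) * σ = σ * ((σ⁻¹ * τ * c * (σ⁻¹ * τ)⁻¹ * c⁻¹) *
            (σ⁻¹ * c * σ⁻¹⁻¹ * c⁻¹)⁻¹) := by group
        rw [← AlgEquiv.mul_apply, h10, AlgEquiv.mul_apply, AlgEquiv.mul_apply, h6, h9]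
      exact hst hg
    have hcF : ∀ (σ : Gal(Qb/ℚ)) (x : Qb), x ∈ F → σ (c x) = c (σ x) := by
      intro σ x hx
      have h5 := hcomm σ (c (σ x)) (hgal c _ (hgal σ x hx))
      have h6 : (σ * c * σ⁻¹ * c⁻¹) (c (σ x)) = σ (c x) := by
        have h7 : (σ * c * σ⁻¹ * c⁻¹) * (c * σ) = σ * c := by group
        rw [← AlgEquiv.mul_apply c σ, ← AlgEquiv.mul_apply, h7, AlgEquiv.mul_apply]
      rw [← h6]
      exact h5
    refine h1 F (le_fd hFN hN) hgal ?_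
    intro σ τ x hx
    rcases hcase σ with hσ | ⟨a, ha, rfl⟩ <;> rcases hcase τ with hτ | ⟨b, hb, rfl⟩
    · exact hAN σ hσ τ hτ x (hFN hx)
    · rw [AlgEquiv.mul_apply, AlgEquiv.mul_apply, hAN σ hσ b hb _ (hFN (hgal c x hx)), hcF σ x hx]
    · rw [AlgEquiv.mul_apply, AlgEquiv.mul_apply, ← hcF τ x hx, hAN a ha τ hτ _ (hFN (hgal c x hx))]
    · rw [AlgEquiv.mul_apply, AlgEquiv.mul_apply, AlgEquiv.mul_apply, AlgEquiv.mul_apply,
        ← hcF b (c x) (hgal c x hx), ← hcF a (c x) (hgal c x hx), hccx]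
      exact hAN a ha b hb x (hFN hx)

end Pool.Agent.Helper832_MU
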