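import Pool.Agent.Q60.MU.Fields
import Pool.Agent.Helper832_EG.Fld4

/-!
# The reduction theorem with decomposition groups at `p`
-/

set_option autoImplicit false

namespace Pool.Agent.Helper832_MU

open NumberField Subgroup Module IntermediateField Pool.Agent.W569.FM Pool.Agent.Q60.MU
open scoped Pointwise commutatorElement

/-- degrees of extensions in which all groups of the family `I` act trivially -/
def DegI {Ω : Type} (p : ℕ) (I : Ω → Subgroup Gal(Qb/ℚ)) (E : IntermediateField ℚ Qb) (C : ℕ) : Prop :=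
  ∀ M : IntermediateField ℚ Qb, E ≤ M → FiniteDimensional ℚ M →
    (∀ σ ∈ E.fixingSubgroup, ∀ x ∈ M, σ x ∈ M) →
    (∀ σ ∈ E.fixingSubgroup, ∀ τ ∈ E.fixingSubgroup, ∀ x ∈ M, σ (τ x) = τ (σ x)) →
    (∀ σ ∈ E.fixingSubgroup, ∀ x ∈ M, (σ ^ p) x = x) →
    (∀ A, ∀ σ ∈ I A, σ ∈ E.fixingSubgroup → ∀ x ∈ M, σ x = x) →
    finrank ℚ M ≤ C * finrank ℚ E

theorem rankLe_iff' {Ω : Type} {I : Ω → Subgroup Gal(Qb/ℚ)} {p : ℕ} (E : IntermediateField ℚ Qb)
    [FiniteDimensional ℚ E] (C : ℕ) : RankLe p I E.fixingSubgroup C ↔ DegI p I E C := by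
  have hK0 := index_ne_zero' E
  constructor
  · intro h M hEM hM h1 h2 h3 h4
    have hWK : M.fixingSubgroup ≤ E.fixingSubgroup := fixingSubgroup_le hEM
    have hmul := relIndex_mul_index hWK
    have hW0 := index_ne_zero' M
    have h5 := h M.fixingSubgroup hWK M.fixingSubgroup_isOpen (by
      intro h0
      rw [h0, zero_mul] at hmul
      exact hW0 hmul.symm) (by
      rintro x ((⟨a, ha, rfl⟩ | ⟨a, ha, b, hb, rfl⟩) | ⟨hx, w, hw⟩)
      · exact (mem_fixingSubgroup_iff _ _).2 fun x hx => h3 a ha x hx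
      · refine (mem_fixingSubgroup_iff _ _).2 fun x hx => ?_
        have hb' : b⁻¹ x ∈ M := h1 _ (inv_mem hb) x hx
        have ha' : a⁻¹ (b⁻¹ x) ∈ M := h1 _ (inv_mem ha) _ hb'
        have h6 := h2 a ha b hb _ ha'
        show ⁅a, b⁆ x = x
        have h7 : ⁅a, b⁆ x = a (b (a⁻¹ (b⁻¹ x))) := rfl
        have h8 : a (a⁻¹ (b⁻¹ x)) = b⁻¹ x := by
          rw [← AlgEquiv.mul_apply, mul_inv_cancel, AlgEquiv.one_apply]
        have h9 : b (b⁻¹ x) = x := by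
          rw [← AlgEquiv.mul_apply, mul_inv_cancel, AlgEquiv.one_apply]
        rw [h7, h6, h8, h9]
      · exact (mem_fixingSubgroup_iff _ _).2 fun y hy => h4 w x hw hx y hy)
    rw [finrank_eq_fixingSubgroup_index, finrank_eq_fixingSubgroup_index, ← hmul]
    exact Nat.mul_le_mul_right _ h5
  · intro h W hWK hWo hWf hg
    have hmul := relIndex_mul_index hWK
    have hW0 : W.index ≠ 0 := by
      rw [← hmul]
      exact mul_ne_zero hWf hK0
    have hfix := fix_fixed hWo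
    have hEM : E ≤ fixedField W := (le_iff_le _ _).2 hWK
    have hfd := finite_fixed hWo hW0
    have hmem : ∀ x, x ∈ fixedField W ↔ ∀ w ∈ W, w x = x := fun x => mem_fixedField_iff _ _
    have h5 := h (fixedField W) hEM hfd (by
      intro σ hσ x hx
      rw [hmem] at hx ⊢
      intro w hw
      have h1 : ⁅σ⁻¹, w⁆ ∈ W := hg (Or.inl (Or.inr ⟨σ⁻¹, inv_mem hσ, w, hWK hw, rfl⟩))
      have h2 : w (σ x) = σ ((⁅σ⁻¹, w⁆ * w) x) := by
        rw [← AlgEquiv.mul_apply, ← AlgEquiv.mul_apply]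
        congr 1
        rw [commutatorElement_def]
        group
      rw [h2, hx _ (W.mul_mem h1 hw)]) (by
      intro σ hσ τ hτ x hx
      rw [hmem] at hx
      have h1 : ⁅σ⁻¹, τ⁻¹⁆ ∈ W := hg (Or.inl (Or.inr ⟨σ⁻¹, inv_mem hσ, τ⁻¹, inv_mem hτ, rfl⟩))
      have h2 : σ (τ x) = τ (σ (⁅σ⁻¹, τ⁻¹⁆ x)) := by
        rw [← AlgEquiv.mul_apply, ← AlgEquiv.mul_apply, ← AlgEquiv.mul_apply]
        congr 1
        rw [commutatorElement_def]
        group
      rw [h2, hx _ h1]) (by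
      intro σ hσ x hx
      rw [hmem] at hx
      exact hx _ (hg (Or.inl (Or.inl ⟨σ, hσ, rfl⟩)))) (by
      intro A σ hσA hσ x hx
      rw [hmem] at hx
      exact hx _ (hg (Or.inr ⟨hσ, A, hσA⟩)))
    rw [finrank_eq_fixingSubgroup_index, finrank_eq_fixingSubgroup_index, hfix, ← hmul] at h5
    exact Nat.le_of_mul_le_mul_right h5 (Nat.pos_of_ne_zero hK0)

theorem mu_iff' {Ω : Type} {I : Ω → Subgroup Gal(Qb/ℚ)} {p : ℕ} {R : ℕ → IntermediateField ℚ Qb}
    (hR : ∀ m, FiniteDimensional ℚ (R m)) (F : IntermediateField ℚ Qb) [FiniteDimensional ℚ F] :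
    Mu0 p I (fun m => (R m).fixingSubgroup) F.fixingSubgroup ↔
      ∃ C, ∀ m, DegI p I (F ⊔ R m) C := by
  refine exists_congr fun C => forall_congr' fun m => ?_
  have := hR m
  rw [← rankLe_iff', fixingSubgroup_sup]

theorem detect_gen {Ω : Type} [MulAction Gal(Qb/ℚ) Ω] {I : Ω → Subgroup Gal(Qb/ℚ)}
    (hI : ∀ (g : Gal(Qb/ℚ)) (w : Ω), ∀ x ∈ I w, g * x * g⁻¹ ∈ I (g • w))
    (p : ℕ) [Fact p.Prime] (R : ℕ → IntermediateField ℚ Qb)
    (hR : ∀ m, FiniteDimensional ℚ (R m)) (hRn : ∀ m, IsGalois ℚ (R m))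
    (N : IntermediateField ℚ Qb) (hN : FiniteDimensional ℚ N) (hNn : IsGalois ℚ N)
    (hram : ∃ t, ∀ m, ∃ T : Finset Ω, T.card ≤ t ∧
        ∀ w, I w ⊓ (R m).fixingSubgroup ≤ N.fixingSubgroup ∨
          ∃ u ∈ T, ∃ d ∈ (R m).fixingSubgroup, w = d • u)
    (𝓔 : Set (IntermediateField ℚ Qb)) (h𝓔 : ∀ E ∈ 𝓔, E ≤ N)
    (hdet : ∀ (S : Type) [AddCommGroup S] [Module (ZMod p) S] [Module.Finite (ZMod p) S]
      (τ : Representation (ZMod p) Gal(Qb/ℚ) S), (∀ g ∈ N.fixingSubgroup, ∀ x, τ g x = x) →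
      IsSimple τ → ∃ E ∈ 𝓔, ∃ v : S, v ≠ 0 ∧ ∀ g ∈ E.fixingSubgroup, τ g v = v)
    (hmu : ∀ E ∈ 𝓔, ∃ C, ∀ m, DegI p I (E ⊔ R m) C) (F : IntermediateField ℚ Qb) (hF : F ≤ N) :
    ∃ C, ∀ m, DegI p I (F ⊔ R m) C := by
  have hfd : ∀ E : IntermediateField ℚ Qb, E ≤ N → FiniteDimensional ℚ E := fun E hE =>
    Submodule.finiteDimensional_of_le (S₁ := Subalgebra.toSubmodule E.toSubalgebra)
      (S₂ := Subalgebra.toSubmodule N.toSubalgebra) hE
  have hFd := hfd F hF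
  rw [← mu_iff' hR]
  have hKn : N.fixingSubgroup.Normal := (InfiniteGalois.normal_iff_isGalois N).2 hNn
  have hKo := N.fixingSubgroup_isOpen
  have hDo : ∀ m, IsOpen ((R m).fixingSubgroup : Set Gal(Qb/ℚ)) := fun m => by
    have := hR m
    exact (R m).fixingSubgroup_isOpen
  refine Mu0.of_le hDo hKn (fixingSubgroup_le hF) hKo (index_ne_zero' N) ?_
  refine reduction (p := p) (I := I) hI
    (fun m => (InfiniteGalois.normal_iff_isGalois (R m)).2 (hRn m)) hDo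
    (fun m => by
      have := hR m
      exact index_ne_zero' (R m)) hKn hKo (index_ne_zero' N) hram ?_
  intro S _ _ _ τ hτ hs
  obtain ⟨E, hE, v, hv, hfix⟩ := hdet S τ hτ hs
  have hEd := hfd E (h𝓔 E hE)
  exact ⟨E.fixingSubgroup, ⟨fixingSubgroup_le (h𝓔 E hE), (mu_iff' hR E).2 (hmu E hE)⟩, v, hv, hfix⟩

end Pool.Agent.Helper832_MU
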