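import Pool.Agent.Helper832_MU.Sub

/-!
# Relative detection
-/

set_option autoImplicit false

namespace Pool.Agent.Helper832_MU

open NumberField Subgroup Module IntermediateField
open Pool.Agent.Q60.MU (Qb isAlg_Qb isGalois_Qb IsSimple stab mem_stab fix_fixed finite_fixed index_ne_zero' RankLe Mu0
  reduction)
open scoped Pointwise commutatorElement

/-- bounded orbits for a subgroup of finite index -/
theorem hram_sub {Ω : Type} [MulAction Gal(Qb/ℚ) Ω] {H D : Subgroup Gal(Qb/ℚ)} (hH : H.index ≠ 0)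
    (T : Finset Ω) : ∃ T' : Finset Ω, T'.card ≤ T.card * H.index ∧
      ∀ u ∈ T, ∀ d ∈ D, ∃ u' ∈ T', ∃ d' ∈ H ⊓ D, d • u = d' • u' := by
  classical
  have hfi : H.FiniteIndex := ⟨hH⟩
  have hfin : Finite (Gal(Qb/ℚ) ⧸ H) := inferInstance
  let _ : Fintype (Gal(Qb/ℚ) ⧸ H) := Fintype.ofFinite _
  let r : Gal(Qb/ℚ) ⧸ H → Gal(Qb/ℚ) := fun q =>
    if h : ∃ d ∈ D, ((d⁻¹ : Gal(Qb/ℚ)) : Gal(Qb/ℚ) ⧸ H) = q then h.choose else 1
  have hr : ∀ d ∈ D, r ((d⁻¹ : Gal(Qb/ℚ)) : Gal(Qb/ℚ) ⧸ H) ∈ D ∧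
      (((r ((d⁻¹ : Gal(Qb/ℚ)) : Gal(Qb/ℚ) ⧸ H))⁻¹ : Gal(Qb/ℚ)) : Gal(Qb/ℚ) ⧸ H) =
        ((d⁻¹ : Gal(Qb/ℚ)) : Gal(Qb/ℚ) ⧸ H) := by
    intro d hd
    have h : ∃ d' ∈ D, ((d'⁻¹ : Gal(Qb/ℚ)) : Gal(Qb/ℚ) ⧸ H) = ((d⁻¹ : Gal(Qb/ℚ)) : Gal(Qb/ℚ) ⧸ H) :=
      ⟨d, hd, rfl⟩
    have h1 : r ((d⁻¹ : Gal(Qb/ℚ)) : Gal(Qb/ℚ) ⧸ H) = h.choose := dif_pos h
    rw [h1]
    exact h.choose_spec
  refine ⟨(T ×ˢ (Finset.univ : Finset (Gal(Qb/ℚ) ⧸ H))).image fun q => r q.2 • q.1, ?_, ?_⟩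
  · refine Finset.card_image_le.trans ?_
    rw [Finset.card_product, Finset.card_univ, ← Nat.card_eq_fintype_card]
    exact le_rfl
  · intro u hu d hd
    set q := ((d⁻¹ : Gal(Qb/ℚ)) : Gal(Qb/ℚ) ⧸ H) with hq
    obtain ⟨h1, h2⟩ := hr d hd
    refine ⟨r q • u, Finset.mem_image.2 ⟨(u, q), Finset.mem_product.2 ⟨hu, Finset.mem_univ _⟩, rfl⟩,
      d * (r q)⁻¹, ⟨?_, D.mul_mem hd (D.inv_mem h1)⟩, ?_⟩
    · have h3 : (r q)⁻¹⁻¹ * d⁻¹ ∈ H := QuotientGroup.eq.1 h2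
      have h4 := H.inv_mem h3
      rwa [mul_inv_rev, inv_inv, inv_inv] at h4
    · rw [smul_smul, inv_mul_cancel_right]

theorem map_inf_sub {H A D : Subgroup Gal(Qb/ℚ)} (hA : A ≤ H) :
    (A.subgroupOf H ⊓ D.subgroupOf H).map H.subtype = A ⊓ D := by
  have h1 : A.subgroupOf H ⊓ D.subgroupOf H = (A ⊓ D).subgroupOf H := (comap_inf _ _ _).symm
  rw [h1, subgroupOf_map_subtype]
  exact inf_eq_left.2 (inf_le_left.trans hA)

theorem rel_detect {p : ℕ} [hp : Fact p.Prime] (h2 : p ≠ 2) (k M : IntermediateField ℚ Qb) (hkM : k ≤ M)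
    (hM : FiniteDimensional ℚ M) (hGal : ∀ σ ∈ k.fixingSubgroup, ∀ x ∈ M, σ x ∈ M)
    (hdet : ∀ (S : Type) [AddCommGroup S] [Module (ZMod p) S] [Module.Finite (ZMod p) S]
      (τ : Representation (ZMod p) k.fixingSubgroup S),
      (∀ g : k.fixingSubgroup, (g : Gal(Qb/ℚ)) ∈ M.fixingSubgroup → ∀ x, τ g x = x) → IsSimple τ →
      ∃ E : IntermediateField ℚ Qb, k ≤ E ∧ E ≤ M ∧ MuZ p E ∧
        ∃ v : S, v ≠ 0 ∧ ∀ g : k.fixingSubgroup, (g : Gal(Qb/ℚ)) ∈ E.fixingSubgroup → τ g v = v) :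
    MuZ p M := by
  by_contra hcon
  unfold MuZ at hcon
  push Not at hcon
  choose R hR hRC using hcon
  have hfd : ∀ m, FiniteDimensional ℚ (R m) := fun m => (hR m).fd
  have hRg : ∀ m, IsGalois ℚ (R m) := fun m => isGalois_of_le (hR m).1 (hfd m)
  have hkfd := le_fd hkM hM
  obtain ⟨t, ht⟩ := hram h2 M
  set H : Subgroup Gal(Qb/ℚ) := k.fixingSubgroup with hHdef
  have hHo : IsOpen (H : Set Gal(Qb/ℚ)) := k.fixingSubgroup_isOpen
  have hHi : H.index ≠ 0 := index_ne_zero' k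
  have hMH : M.fixingSubgroup ≤ H := fixingSubgroup_le hkM
  have hidx : ∀ A : Subgroup Gal(Qb/ℚ), A.index ≠ 0 → (A.subgroupOf H).index ≠ 0 := by
    intro A hA
    have : A.FiniteIndex := ⟨hA⟩
    exact FiniteIndex.index_ne_zero
  have hMn : (M.fixingSubgroup.subgroupOf H).Normal := by
    refine ⟨fun x hx g => ?_⟩
    rw [mem_subgroupOf] at hx ⊢
    refine (IntermediateField.mem_fixingSubgroup_iff _ _).2 fun y hy => ?_
    have h1 : (g : Gal(Qb/ℚ))⁻¹ y ∈ M := hGal _ (H.inv_mem g.2) y hy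
    have h3 := (IntermediateField.mem_fixingSubgroup_iff _ _).1 hx _ h1
    show ((g : Gal(Qb/ℚ)) * (x : Gal(Qb/ℚ)) * (g : Gal(Qb/ℚ))⁻¹) y = y
    rw [AlgEquiv.mul_apply, AlgEquiv.mul_apply, h3, ← AlgEquiv.mul_apply, mul_inv_cancel,
      AlgEquiv.one_apply]
  have hred := reduction (𝔾 := H) (p := p) (Ω := Ideal (𝓞 Qb)) (I := fun w => (locG p w).subgroupOf H)
    (fun g w x hx => locG_conj p (g : Gal(Qb/ℚ)) w (x : Gal(Qb/ℚ)) hx)
    (Dm := fun m => (R m).fixingSubgroup.subgroupOf H)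
    (fun m => ⟨fun x hx g => ((InfiniteGalois.normal_iff_isGalois (R m)).2 (hRg m)).conj_mem _ hx _⟩)
    (fun m => by
      have := hfd m
      exact ((R m).fixingSubgroup_isOpen).preimage continuous_subtype_val)
    (fun m => by
      have := hfd m
      exact hidx _ (index_ne_zero' (R m)))
    (K := M.fixingSubgroup.subgroupOf H) hMn (M.fixingSubgroup_isOpen.preimage continuous_subtype_val)
    (hidx _ (index_ne_zero' M)) ?_ ?_
  · obtain ⟨C, hC⟩ := hred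
    refine hRC C (degS_iff.1 ?_)
    have hRf := hfd C
    have h3 := (rank_sub hHo (locG p) _ C).1 (hC C)
    rw [map_inf_sub hMH] at h3
    rw [← rankLe_iff', fixingSubgroup_sup]
    exact h3
  · refine ⟨t * H.index, fun m => ?_⟩
    obtain ⟨T, hT, hT2⟩ := ht (R m) (hR m).1 (hfd m)
    obtain ⟨T', hT', hT2'⟩ := hram_sub (D := (R m).fixingSubgroup) hHi T
    refine ⟨T', hT'.trans (Nat.mul_le_mul_right _ hT), fun w => ?_⟩
    rcases hT2 w with h | ⟨u, hu, d, hd, h⟩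
    · left
      rintro x ⟨hx1, hx2⟩
      exact h ⟨hx1, hx2⟩
    · right
      obtain ⟨u', hu', d', hd', h'⟩ := hT2' u hu d hd
      exact ⟨u', hu', ⟨d', hd'.1⟩, hd'.2, h.trans h'⟩
  · intro S _ _ _ τ hτ hs
    obtain ⟨E, hkE, hEM, ⟨C, hC⟩, v, hv, hfix⟩ := hdet S τ (fun g hg x => hτ g hg x) hs
    have hEf := le_fd hEM hM
    refine ⟨E.fixingSubgroup.subgroupOf H, ⟨fun x hx => fixingSubgroup_le hEM hx, C, fun m => ?_⟩, v, hv,
      fun g hg => hfix g hg⟩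
    have hRf := hfd m
    rw [rank_sub hHo (locG p), map_inf_sub (fixingSubgroup_le hkE)]
    have h3 := (rankLe_iff' (I := locG p) (E ⊔ R m) C).2 (degS_iff.2 (hC _ (hR m)))
    rw [fixingSubgroup_sup] at h3
    exact h3

end Pool.Agent.Helper832_MU
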