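import Pool.Agent.Helper832_MU.Det

/-!
# Complex conjugation
-/

set_option autoImplicit false

namespace Pool.Agent.Helper832_MU

open NumberField Subgroup Module IntermediateField
open Pool.Agent.Q60.MU (Qb isAlg_Qb isGalois_Qb IsSimple stab mem_stab fix_fixed finite_fixed index_ne_zero' RankLe)
open scoped Pointwise commutatorElement

theorem le_fd {E F : IntermediateField ℚ Qb} (h : E ≤ F) (hF : FiniteDimensional ℚ F) :
    FiniteDimensional ℚ E :=
  Submodule.finiteDimensional_of_le (S₁ := Subalgebra.toSubmodule E.toSubalgebra)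
    (S₂ := Subalgebra.toSubmodule F.toSubalgebra) h

/-- Subfields. -/
theorem MuZ.mono {p : ℕ} [hp : Fact p.Prime] {E F : IntermediateField ℚ Qb} (hEF : E ≤ F)
    (hF : FiniteDimensional ℚ F) (h : MuZ p F) : MuZ p E := by
  obtain ⟨C, hC⟩ := h
  have hE := le_fd hEF hF
  refine ⟨C * F.fixingSubgroup.relIndex E.fixingSubgroup, fun L hL => ?_⟩
  have hLf := hL.fd
  have h1 := (rankLe_iff' (I := locG p) (F ⊔ L) C).2 (degS_iff.2 (hC L hL))
  rw [← degS_iff, ← rankLe_iff']
  rw [fixingSubgroup_sup] at h1 ⊢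
  have hle : F.fixingSubgroup ≤ E.fixingSubgroup := fixingSubgroup_le hEF
  have hr : F.fixingSubgroup.relIndex E.fixingSubgroup ≠ 0 := by
    intro h0
    have h2 := relIndex_mul_index hle
    rw [h0, zero_mul] at h2
    exact index_ne_zero' F h2.symm
  have h2 : (F.fixingSubgroup ⊓ L.fixingSubgroup).relIndex (E.fixingSubgroup ⊓ L.fixingSubgroup) =
      F.fixingSubgroup.relIndex (E.fixingSubgroup ⊓ L.fixingSubgroup) := by
    rw [← inf_relIndex_right, ← inf_relIndex_right F.fixingSubgroup]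
    congr 1
    ext x
    simp only [Subgroup.mem_inf]
    tauto
  have h3 : F.fixingSubgroup.relIndex (E.fixingSubgroup ⊓ L.fixingSubgroup) ≤
      F.fixingSubgroup.relIndex E.fixingSubgroup := relIndex_le_of_le_right inf_le_left hr
  have h4 : F.fixingSubgroup.relIndex (E.fixingSubgroup ⊓ L.fixingSubgroup) ≠ 0 :=
    fun h5 => hr (relIndex_eq_zero_of_le_right inf_le_left h5)
  refine (RankLe.of_le (inf_le_inf_right _ hle) (by
    rw [Subgroup.coe_inf]
    exact F.fixingSubgroup_isOpen.inter L.fixingSubgroup_isOpen) (by rw [h2]; exact h4) h1).mono ?_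
  rw [h2]
  exact Nat.mul_le_mul_left _ h3

/-- the subfield of the elements with real image -/
def realPart (φ : Qb →+* ℂ) : IntermediateField ℚ Qb where
  carrier := {x | (φ x).im = 0}
  mul_mem' := fun {a b} ha hb => by
    have ha' : (φ a).im = 0 := ha
    have hb' : (φ b).im = 0 := hb
    show (φ (a * b)).im = 0
    rw [map_mul, Complex.mul_im, ha', hb', mul_zero, zero_mul, add_zero]
  add_mem' := fun {a b} ha hb => by
    have ha' : (φ a).im = 0 := ha
    have hb' : (φ b).im = 0 := hb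
    show (φ (a + b)).im = 0
    rw [map_add, Complex.add_im, ha', hb', add_zero]
  algebraMap_mem' := fun r => by
    show (φ (algebraMap ℚ Qb r)).im = 0
    rw [eq_ratCast, map_ratCast]
    exact Complex.ratCast_im r
  inv_mem' := fun a ha => by
    have ha' : (φ a).im = 0 := ha
    show (φ a⁻¹).im = 0
    rw [map_inv₀, Complex.inv_im, ha', neg_zero, zero_div]

theorem mem_realPart {φ : Qb →+* ℂ} {x : Qb} : x ∈ realPart φ ↔ (φ x).im = 0 := Iff.rfl

/-- complex conjugation -/
theorem exists_conj (φ : Qb →+* ℂ) : ∃ c : Gal(Qb/ℚ), ∀ x, φ (c x) = star (φ x) := by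
  let _ : Algebra Qb ℂ := φ.toAlgebra
  have hst : IsScalarTower ℚ Qb ℂ := IsScalarTower.of_algebraMap_eq fun r => by
    rw [eq_ratCast, eq_ratCast]
    exact (map_ratCast φ r).symm
  let k : ℂ ≃ₐ[ℚ] ℂ := Complex.conjAe.restrictScalars ℚ
  have hN : Normal ℚ Qb := inferInstance
  refine ⟨k.restrictNormal Qb, fun x => ?_⟩
  exact AlgEquiv.restrictNormal_commutes k Qb x

theorem conj_fix {φ : Qb →+* ℂ} {c : Gal(Qb/ℚ)} (hc : ∀ x, φ (c x) = star (φ x)) {x : Qb} :
    c x = x ↔ x ∈ realPart φ := by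
  rw [mem_realPart]
  constructor
  · intro h
    have h1 := hc x
    rw [h] at h1
    exact Complex.conj_eq_iff_im.1 h1.symm
  · intro h
    apply φ.injective
    rw [hc]
    exact Complex.conj_eq_iff_im.2 h

theorem conj_sq {φ : Qb →+* ℂ} {c : Gal(Qb/ℚ)} (hc : ∀ x, φ (c x) = star (φ x)) : c * c = 1 := by
  ext x
  apply φ.injective
  rw [AlgEquiv.mul_apply, hc, hc, star_star, AlgEquiv.one_apply]

end Pool.Agent.Helper832_MU
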