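import Pool.Agent.Helper832_MU.Rep

/-!
# Open subgroups
-/

set_option autoImplicit false

namespace Pool.Agent.Helper832_MU

open Subgroup Module
open Pool.Agent.Q60.MU (RankLe gens)
open scoped commutatorElement

theorem rank_sub {𝔾 : Type} [Group 𝔾] [TopologicalSpace 𝔾] {H : Subgroup 𝔾} (hH : IsOpen (H : Set 𝔾))
    {p : ℕ} {Ω : Type} (I : Ω → Subgroup 𝔾) (A : Subgroup H) (C : ℕ) :
    RankLe p (fun w => (I w).subgroupOf H) A C ↔ RankLe p I (A.map H.subtype) C := by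
  constructor
  · intro h W hWA hWo hWf hg
    have hWH : W ≤ H := hWA.trans (map_subtype_le A)
    have hW : (W.subgroupOf H).map H.subtype = W := map_subgroupOf_eq_of_le hWH
    have hr : W.relIndex (A.map H.subtype) = (W.subgroupOf H).relIndex A := by
      conv_lhs => rw [← hW]
      exact relIndex_map_map_of_injective _ _ H.subtype_injective
    rw [hr] at hWf ⊢
    refine h (W.subgroupOf H) ?_ (hWo.preimage continuous_subtype_val) hWf ?_
    · intro x hx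
      obtain ⟨a, ha, hax⟩ := hWA (mem_subgroupOf.1 hx)
      rwa [← H.subtype_injective hax]
    · rintro y ((⟨a, ha, rfl⟩ | ⟨a, ha, b, hb, rfl⟩) | ⟨hy, w, hw⟩)
      · exact hg (Or.inl (Or.inl ⟨a, ⟨a, ha, rfl⟩, rfl⟩))
      · exact hg (Or.inl (Or.inr ⟨a, ⟨a, ha, rfl⟩, b, ⟨b, hb, rfl⟩, rfl⟩))
      · exact hg (Or.inr ⟨⟨y, hy, rfl⟩, w, hw⟩)
  · intro h W hWA hWo hWf hg
    have hr : (W.map H.subtype).relIndex (A.map H.subtype) = W.relIndex A :=
      relIndex_map_map_of_injective _ _ H.subtype_injective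
    rw [← hr] at hWf ⊢
    refine h (W.map H.subtype) (map_mono hWA) ?_ hWf ?_
    · exact hH.isOpenEmbedding_subtypeVal.isOpenMap _ hWo
    · rintro y ((⟨_, ⟨a, ha, rfl⟩, rfl⟩ | ⟨_, ⟨a, ha, rfl⟩, _, ⟨b, hb, rfl⟩, rfl⟩) | ⟨⟨y, hy, rfl⟩, w, hw⟩)
      · exact ⟨a ^ p, hg (Or.inl (Or.inl ⟨a, ha, rfl⟩)), rfl⟩
      · exact ⟨⁅a, b⁆, hg (Or.inl (Or.inr ⟨a, ha, b, hb, rfl⟩)), rfl⟩
      · exact ⟨y, hg (Or.inr ⟨hy, w, hw⟩), rfl⟩

end Pool.Agent.Helper832_MU
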