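import Pool.Agent.Helper832_MU.Inv

/-!
# The family of the inertia groups away from `p`
-/

set_option autoImplicit false

namespace Pool.Agent.Helper832_MU

open NumberField Subgroup Module IntermediateField
open Pool.Agent.Q60.MU (Qb)
open scoped Pointwise commutatorElement

open Classical in
/-- the inertia group at `P` if `p ∉ P`, trivial otherwise -/
noncomputable def tamG (p : ℕ) (P : Ideal (𝓞 Qb)) : Subgroup Gal(Qb/ℚ) :=
  if P.IsMaximal ∧ (p : 𝓞 Qb) ∉ P then inr P else ⊥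

theorem tamG_ne {p : ℕ} {P : Ideal (𝓞 Qb)} (hP : P.IsMaximal) (hp : (p : 𝓞 Qb) ∉ P) :
    tamG p P = inr P := by
  rw [tamG, if_pos ⟨hP, hp⟩]

theorem tamG_bot {p : ℕ} {P : Ideal (𝓞 Qb)} (h : ¬ (P.IsMaximal ∧ (p : 𝓞 Qb) ∉ P)) : tamG p P = ⊥ := by
  rw [tamG, if_neg h]

theorem tamG_le {p : ℕ} (P : Ideal (𝓞 Qb)) : tamG p P ≤ locG p P := by
  by_cases h : P.IsMaximal ∧ (p : 𝓞 Qb) ∉ P
  · rw [tamG_ne h.1 h.2, locG_ne h.1 h.2]
  · rw [tamG_bot h]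
    exact bot_le

theorem tamG_conj (p : ℕ) (g : Gal(Qb/ℚ)) (P : Ideal (𝓞 Qb)) :
    ∀ x ∈ tamG p P, g * x * g⁻¹ ∈ tamG p (g • P) := by
  intro x hx
  by_cases h : P.IsMaximal ∧ (p : 𝓞 Qb) ∉ P
  · have hgP := smul_max h.1 g
    have hgp : (p : 𝓞 Qb) ∉ g • P := fun h' => h.2 ((natCast_mem_smul g p).1 h')
    rw [tamG_ne hgP hgp, ← locG_ne hgP hgp]
    rw [tamG_ne h.1 h.2, ← locG_ne h.1 h.2] at hx
    exact locG_conj p g P x hx
  · rw [tamG_bot h, Subgroup.mem_bot] at hx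
    rw [hx, mul_one, mul_inv_cancel]
    exact one_mem _

end Pool.Agent.Helper832_MU
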