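import Pool.Agent.Helper832_MU.Quad

/-!
# The family of all inertia groups
-/

set_option autoImplicit false

namespace Pool.Agent.Helper832_MU

open NumberField Subgroup Module IntermediateField
open Pool.Agent.Q60.MU (Qb)
open scoped Pointwise commutatorElement

open Classical in
/-- the inertia group at the maximal ideal `P` -/
noncomputable def unrG (P : Ideal (𝓞 Qb)) : Subgroup Gal(Qb/ℚ) := if P.IsMaximal then inr P else ⊥

theorem unrG_max {P : Ideal (𝓞 Qb)} (hP : P.IsMaximal) : unrG P = inr P := by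
  rw [unrG, if_pos hP]

theorem unrG_bot {P : Ideal (𝓞 Qb)} (hP : ¬ P.IsMaximal) : unrG P = ⊥ := by
  rw [unrG, if_neg hP]

theorem unrG_le {p : ℕ} (P : Ideal (𝓞 Qb)) : unrG P ≤ locG p P := by
  by_cases hP : P.IsMaximal
  · by_cases hp : (p : 𝓞 Qb) ∈ P
    · rw [unrG_max hP, locG_p hP hp]
      intro σ hσ
      show σ • P = P
      refine smul_eq_of_le hP fun x hx => ?_
      have h7 : σ • x = (σ • x - x) + x := by ring
      rw [h7]
      exact P.add_mem (hσ x) hx
    · rw [unrG_max hP, locG_ne hP hp]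
  · rw [unrG_bot hP]
    exact bot_le

theorem unrG_conj (g : Gal(Qb/ℚ)) (P : Ideal (𝓞 Qb)) : ∀ x ∈ unrG P, g * x * g⁻¹ ∈ unrG (g • P) := by
  intro x hx
  by_cases hP : P.IsMaximal
  · rw [unrG_max hP] at hx
    rw [unrG_max (smul_max hP g)]
    intro y
    rw [mem_smul_iff]
    have h1 : g⁻¹ • ((g * x * g⁻¹) • y - y) = x • (g⁻¹ • y) - g⁻¹ • y := by
      rw [smul_sub, smul_smul, smul_smul]
      congr 2
      group
    rw [h1]
    exact hx _
  · rw [unrG_bot hP, Subgroup.mem_bot] at hx
    rw [hx, mul_one, mul_inv_cancel]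
    exact one_mem _

end Pool.Agent.Helper832_MU
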